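import Mathlib
import Pool.Agent.H19.RPDefs

/-!
Narrow systems (MP_39270e_co).
-/

namespace H23KC

open H19RP

/-- `H` is `k`-intersectingly covered by transversals that are narrow in `y` parts: to every set
`S` of at most `k` edges one can assign a transversal `C S` which is an edge of `H`, covers `S` and
meets all the other assigned transversals, and there are a set `Y` of `y` parts and for each part
`i` of `Y` a set `Q` of at most `q` vertices which contains the vertices of all the assigned
transversals in part `i`. -/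
def NarrowCovered {r : ℕ} (q y k : ℕ) (H : Finset (Fin r → ℕ)) : Prop :=
  ∃ C : Finset (Fin r → ℕ) → (Fin r → ℕ),
    (∀ S ⊆ H, S.card ≤ k →
      (∀ e ∈ S, Meets (C S) e) ∧ C S ∈ H ∧ ∀ S' ⊆ H, S'.card ≤ k → Meets (C S) (C S')) ∧
    ∃ Y : Finset (Fin r), Y.card = y ∧
      ∀ i ∈ Y, ∃ Q : Finset ℕ, Q.card ≤ q ∧ ∀ S ⊆ H, S.card ≤ k → C S i ∈ Q

end H23KC
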