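import Mathlib
import Pool.Agent.H19.RPDefs
import Pool.Agent.H19.RPUpper
import Pool.Agent.H23.KC.NDefs

/-!
Systems with two vertices in each part (MP_39270e_co): `k ≥ 4 C(r - y, (r - y)/2)` gives cover
number at most `r + y`.
-/

namespace H23KC

open H19RP Finset

/-- The number of walks of `n` steps `±1` all of whose partial sums are less than `t`. -/
def walks : ℕ → ℕ → ℕ
  | _, 0 => 0
  | 0, _ + 1 => 1
  | n + 1, t + 1 => walks n t + walks n (t + 2)

lemma walks_zero (n : ℕ) : walks n 0 = 0 := by cases n <;> rfl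

/-- A large set of words contains, in some face with free coordinates `D ∪ Z`, words with all
patterns on `Z`, where `Z` is larger than `D` by `t`. -/
theorem exists_config : ∀ (n t : ℕ) (A : Finset (Fin n → Bool)), walks n t < A.card →
    ∃ (D Z : Finset (Fin n)) (β : Fin n → Bool), Disjoint D Z ∧ D.card + t ≤ Z.card ∧
      ∀ z : Fin n → Bool, ∃ x ∈ A, (∀ i ∈ Z, x i = z i) ∧ ∀ i, i ∉ D → i ∉ Z → x i = β i := by
  classical
  intro n
  induction n with
  | zero =>
    intro t A hA
    cases t with
    | zero =>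
      obtain ⟨x, hx⟩ := card_pos.1 (lt_of_le_of_lt (Nat.zero_le _) hA)
      exact ⟨∅, ∅, x, disjoint_empty_left _, by simp, fun z => ⟨x, hx, by simp, fun i => i.elim0⟩⟩
    | succ t =>
      exfalso
      have h1 : A.card ≤ 1 := by
        refine (card_le_univ A).trans ?_
        simp
      have h2 : walks 0 (t + 1) = 1 := rfl
      omega
  | succ n ih =>
    intro t A hA
    cases t with
    | zero =>
      obtain ⟨x, hx⟩ := card_pos.1 (lt_of_le_of_lt (Nat.zero_le _) hA)
      refine ⟨∅, ∅, x, disjoint_empty_left _, by simp, fun z => ⟨x, hx, by simp, fun i _ _ => rfl⟩⟩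
    | succ t =>
      have hw : walks (n + 1) (t + 1) = walks n t + walks n (t + 2) := rfl
      let B : Bool → Finset (Fin n → Bool) := fun b => univ.filter fun x => Fin.cons b x ∈ A
      have hB : ∀ b x, x ∈ B b ↔ (Fin.cons b x : Fin (n + 1) → Bool) ∈ A := by
        intro b x
        simp [B]
      have hle : ∀ b : Bool, (A.filter fun x => x 0 = b).card ≤ (B b).card := by
        intro b
        refine card_le_card_of_injOn Fin.tail ?_ ?_
        · intro x hx
          obtain ⟨h1, h2⟩ := mem_filter.1 hx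
          have : (Fin.cons b (Fin.tail x) : Fin (n + 1) → Bool) = x := by
            rw [← h2]; exact Fin.cons_self_tail x
          exact (hB b _).2 (by rw [this]; exact h1)
        · intro x hx y hy hxy
          obtain ⟨-, h2⟩ := mem_filter.1 hx
          obtain ⟨-, h2'⟩ := mem_filter.1 hy
          rw [← Fin.cons_self_tail x, ← Fin.cons_self_tail y, hxy, h2, h2']
      have hsum : A.card ≤ (B false).card + (B true).card := by
        have h1 := Finset.card_filter_add_card_filter_not (s := A) (fun x => x 0 = false)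
        have h2 : (A.filter fun x => ¬ x 0 = false) = A.filter fun x => x 0 = true := by
          refine filter_congr fun x _ => ?_
          simp
        rw [h2] at h1
        have := hle false
        have := hle true
        omega
      have hui := card_union_add_card_inter (B false) (B true)
      have hcase : walks n t < (B false ∩ B true).card ∨ walks n (t + 2) < (B false ∪ B true).card := by
        omega
      rcases hcase with h | h
      · obtain ⟨D, Z, β, hd, hc, hz⟩ := ih t _ h
        refine ⟨D.map (Fin.succEmb n), insert 0 (Z.map (Fin.succEmb n)), Fin.cons false β, ?_, ?_, ?_⟩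
        · rw [disjoint_left]
          intro i hi hi'
          obtain ⟨a, ha, rfl⟩ := mem_map.1 hi
          rcases mem_insert.1 hi' with h0 | h0
          · exact absurd h0 (Fin.succ_ne_zero a)
          · obtain ⟨b, hb, hb'⟩ := mem_map.1 h0
            have : b = a := (Fin.succEmb n).injective hb'
            exact disjoint_left.1 hd ha (this ▸ hb)
        · rw [card_insert_of_notMem, card_map, card_map]
          · omega
          · intro h0
            obtain ⟨b, hb, hb'⟩ := mem_map.1 h0
            exact absurd hb' (Fin.succ_ne_zero b)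
        · intro z
          obtain ⟨x, hx, h1, h2⟩ := hz (Fin.tail z)
          refine ⟨Fin.cons (z 0) x, ?_, ?_, ?_⟩
          · cases hz0 : z 0
            · exact (hB _ _).1 (mem_inter.1 hx).1
            · exact (hB _ _).1 (mem_inter.1 hx).2
          · intro i hi
            rcases mem_insert.1 hi with h0 | h0
            · subst h0; simp
            · obtain ⟨b, hb, rfl⟩ := mem_map.1 h0
              simpa [Fin.tail] using h1 b hb
          · intro i hD hZ
            have hi0 : i ≠ 0 := fun h0 => hZ (h0 ▸ mem_insert_self _ _)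
            obtain ⟨b, rfl⟩ := Fin.exists_succ_eq.2 hi0
            have hbD : b ∉ D := fun hb => hD (mem_map.2 ⟨b, hb, rfl⟩)
            have hbZ : b ∉ Z := fun hb => hZ (mem_insert_of_mem (mem_map.2 ⟨b, hb, rfl⟩))
            simpa using h2 b hbD hbZ
      · obtain ⟨D, Z, β, hd, hc, hz⟩ := ih (t + 2) _ h
        refine ⟨insert 0 (D.map (Fin.succEmb n)), Z.map (Fin.succEmb n), Fin.cons false β, ?_, ?_, ?_⟩
        · rw [disjoint_left]
          intro i hi' hi
          obtain ⟨a, ha, rfl⟩ := mem_map.1 hi
          rcases mem_insert.1 hi' with h0 | h0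
          · exact absurd h0 (Fin.succ_ne_zero a)
          · obtain ⟨b, hb, hb'⟩ := mem_map.1 h0
            have : b = a := (Fin.succEmb n).injective hb'
            exact disjoint_left.1 hd (this ▸ hb) ha
        · rw [card_insert_of_notMem, card_map, card_map]
          · omega
          · intro h0
            obtain ⟨b, hb, hb'⟩ := mem_map.1 h0
            exact absurd hb' (Fin.succ_ne_zero b)
        · intro z
          obtain ⟨x, hx, h1, h2⟩ := hz (Fin.tail z)
          have hx' : ∃ b : Bool, (Fin.cons b x : Fin (n + 1) → Bool) ∈ A := by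
            rcases mem_union.1 hx with h0 | h0
            · exact ⟨false, (hB _ _).1 h0⟩
            · exact ⟨true, (hB _ _).1 h0⟩
          obtain ⟨b, hb⟩ := hx'
          refine ⟨_, hb, ?_, ?_⟩
          · intro i hi
            obtain ⟨c, hc, rfl⟩ := mem_map.1 hi
            simpa [Fin.tail] using h1 c hc
          · intro i hD hZ
            have hi0 : i ≠ 0 := fun h0 => hD (h0 ▸ mem_insert_self _ _)
            obtain ⟨c, rfl⟩ := Fin.exists_succ_eq.2 hi0
            have hbD : c ∉ D := fun hb => hD (mem_insert_of_mem (mem_map.2 ⟨c, hb, rfl⟩))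
            have hbZ : c ∉ Z := fun hb => hZ (mem_map.2 ⟨c, hb, rfl⟩)
            simpa using h2 c hbD hbZ

/-- The number of words with excess in `[-t, t - 1]`. -/
lemma walks_le_sum (n : ℕ) : ∀ t : ℕ, walks n t ≤
    ∑ i ∈ range (n + 1), if n ≤ 2 * i + t ∧ 2 * i + 1 ≤ n + t then n.choose i else 0 := by
  induction n with
  | zero =>
    intro t
    cases t with
    | zero => simp [walks]
    | succ t => simp [walks]
  | succ n ih =>
    intro t
    cases t with
    | zero => simp [walks]
    | succ t =>
      have hw : walks (n + 1) (t + 1) = walks n t + walks n (t + 2) := rfl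
      rw [hw]
      refine (add_le_add (ih t) (ih (t + 2))).trans ?_
      rw [sum_range_succ' _ (n + 1)]
      have e1 : ∑ i ∈ range (n + 1), (if n + 1 ≤ 2 * (i + 1) + (t + 1) ∧
            2 * (i + 1) + 1 ≤ n + 1 + (t + 1) then (n + 1).choose (i + 1) else 0) =
          ∑ i ∈ range (n + 1), (if n ≤ 2 * i + (t + 2) ∧ 2 * i + 1 ≤ n + t then n.choose i else 0) +
          ∑ i ∈ range (n + 1), (if n ≤ 2 * (i + 1) + t ∧ 2 * (i + 1) + 1 ≤ n + (t + 2)
            then n.choose (i + 1) else 0) := by
        rw [← sum_add_distrib]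
        refine sum_congr rfl fun i _ => ?_
        rw [Nat.choose_succ_succ]
        by_cases hh : n + 1 ≤ 2 * (i + 1) + (t + 1) ∧ 2 * (i + 1) + 1 ≤ n + 1 + (t + 1)
        · rw [if_pos hh, if_pos (by omega), if_pos (by omega)]
        · rw [if_neg hh, if_neg (by omega), if_neg (by omega)]
      have e2 : ∑ i ∈ range (n + 1), (if n ≤ 2 * (i + 1) + t ∧ 2 * (i + 1) + 1 ≤ n + (t + 2)
            then n.choose (i + 1) else 0) +
            (if n + 1 ≤ 2 * 0 + (t + 1) ∧ 2 * 0 + 1 ≤ n + 1 + (t + 1) then (n + 1).choose 0 else 0) =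
          ∑ i ∈ range (n + 1), (if n ≤ 2 * i + t ∧ 2 * i + 1 ≤ n + (t + 2) then n.choose i else 0) := by
        have h0 : (if n + 1 ≤ 2 * 0 + (t + 1) ∧ 2 * 0 + 1 ≤ n + 1 + (t + 1) then (n + 1).choose 0 else 0)
            = (if n ≤ 2 * 0 + t ∧ 2 * 0 + 1 ≤ n + (t + 2) then n.choose 0 else 0) := by
          by_cases hh : n ≤ t
          · rw [if_pos (by omega), if_pos (by omega)]; simp
          · rw [if_neg (by omega), if_neg (by omega)]
        rw [h0, ← sum_range_succ' (fun i => if n ≤ 2 * i + t ∧ 2 * i + 1 ≤ n + (t + 2)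
          then n.choose i else 0) (n + 1), sum_range_succ _ (n + 1)]
        simp
      rw [e1, add_assoc, e2, ← sum_add_distrib, ← sum_add_distrib]
      refine sum_le_sum fun i _ => ?_
      by_cases h1 : n ≤ 2 * i + t ∧ 2 * i + 1 ≤ n + t
      · rw [if_pos h1, if_pos (by omega), if_pos (by omega), if_pos (by omega)]
      · rw [if_neg h1, zero_add]
        by_cases h2 : n ≤ 2 * i + (t + 2) ∧ 2 * i + 1 ≤ n + (t + 2)
        · rw [if_pos h2]
          by_cases h3 : n ≤ 2 * i + (t + 2) ∧ 2 * i + 1 ≤ n + t
          · rw [if_pos h3]; exact Nat.le_add_right _ _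
          · rw [if_neg h3, if_pos (by omega), zero_add]
        · rw [if_neg h2]; exact Nat.zero_le _

lemma walks_le (n t : ℕ) : walks n t ≤ t * n.choose (n / 2) := by
  refine (walks_le_sum n t).trans ?_
  rw [← sum_filter]
  refine (sum_le_card_nsmul _ _ (n.choose (n / 2)) fun i _ => Nat.choose_le_middle i n).trans ?_
  rw [smul_eq_mul]
  refine Nat.mul_le_mul_right _ ?_
  have hsub : (range (n + 1)).filter (fun i => n ≤ 2 * i + t ∧ 2 * i + 1 ≤ n + t) ⊆
      Ico ((n - t + 1) / 2) ((n + t + 1) / 2) := by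
    intro i hi
    obtain ⟨-, h1, h2⟩ := mem_filter.1 hi
    rw [mem_Ico]
    omega
  refine (card_le_card hsub).trans ?_
  rw [Nat.card_Ico]
  omega

variable {r n : ℕ}

/-- The vertices in the first `n` parts coded by a word. -/
def tw (h : n ≤ r) (a b : Fin r → ℕ) (x : Fin n → Bool) : Fin n → ℕ :=
  fun i => if x i then a (Fin.castLE h i) else b (Fin.castLE h i)

/-- The edge `e` misses the word `x` in the first `n` parts and has no vertex `a p` or `b p` in the
other parts. -/
def Misses (h : n ≤ r) (a b : Fin r → ℕ) (e : Fin r → ℕ) (x : Fin n → Bool) : Prop :=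
  (∀ i, e (Fin.castLE h i) ≠ tw h a b x i) ∧ ∀ p : Fin r, n ≤ (p : ℕ) → e p ≠ a p ∧ e p ≠ b p

/-- One edge that misses `2 ^ j` of the words of `A`. -/
theorem kill_step {H : Finset (Fin r → ℕ)} (h : n ≤ r) (hτ : r + (r - n) < tau H)
    {a b : Fin r → ℕ} (hab : ∀ i, a i ≠ b i) (A : Finset (Fin n → Bool)) (j : ℕ)
    (hA : walks n (2 * j) < A.card) :
    ∃ e ∈ H, ∃ K ⊆ A, 2 ^ j ≤ K.card ∧ ∀ x ∈ K, Misses h a b e x := by
  classical
  obtain ⟨D, Z, β, hd, hc, hz⟩ := exists_config n (2 * j) A hA
  obtain ⟨J, hJ, hJc⟩ := exists_subset_card_eq (show j ≤ Z.card by omega)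
  let R : Finset (Fin n) := univ \ (D ∪ Z)
  let O : Finset (Fin r) := univ.filter fun p => n ≤ (p : ℕ)
  let W : Finset (Fin r × ℕ) :=
    ((D ∪ J).image fun i => (Fin.castLE h i, a (Fin.castLE h i))) ∪
    ((D ∪ J).image fun i => (Fin.castLE h i, b (Fin.castLE h i))) ∪
    (R.image fun i => (Fin.castLE h i, tw h a b β i)) ∪
    ((O.image fun p => (p, a p)) ∪ O.image fun p => (p, b p))
  have hOc : O.card = r - n := by
    have h1 : O.card + (univ.filter fun p : Fin r => (p : ℕ) < n).card = r := by
      have h2 := Finset.card_filter_add_card_filter_not (s := (univ : Finset (Fin r)))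
        (fun p : Fin r => n ≤ (p : ℕ))
      rw [card_univ, Fintype.card_fin] at h2
      have h3 : (univ.filter fun p : Fin r => ¬ n ≤ (p : ℕ)) =
          univ.filter fun p : Fin r => (p : ℕ) < n := by
        refine filter_congr fun p _ => ?_
        omega
      rw [h3] at h2
      exact h2
    have h4 : (univ.filter fun p : Fin r => (p : ℕ) < n).card = n := by
      rw [Fin.card_filter_val_lt]
      omega
    omega
  have hWc : W.card ≤ r + (r - n) := by
    have h1 : (D ∪ J).card ≤ D.card + j := (card_union_le _ _).trans (by rw [hJc])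
    have h2 : (D ∪ Z).card = D.card + Z.card := card_union_of_disjoint hd
    have h3 : R.card + (D ∪ Z).card = n := by
      have := card_sdiff_add_card_eq_card (subset_univ (D ∪ Z))
      rwa [card_univ, Fintype.card_fin] at this
    have h4 : W.card ≤ ((D ∪ J).card + (D ∪ J).card + R.card) + (O.card + O.card) :=
      (card_union_le _ _).trans (add_le_add ((card_union_le _ _).trans
        (add_le_add ((card_union_le _ _).trans (add_le_add card_image_le card_image_le))
          card_image_le)) ((card_union_le _ _).trans (add_le_add card_image_le card_image_le)))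
    omega
  have hW : ¬ IsCover W H := fun hW => by
    have := tau_le_of_cover H W hW
    omega
  unfold IsCover at hW
  push Not at hW
  obtain ⟨e, he, hew⟩ := hW
  have hDJ : ∀ i, i ∈ D ∨ i ∈ J →
      e (Fin.castLE h i) ≠ a (Fin.castLE h i) ∧ e (Fin.castLE h i) ≠ b (Fin.castLE h i) := by
    intro i hi
    have hi' : i ∈ D ∪ J := mem_union.2 hi
    constructor
    · intro h0
      apply hew (Fin.castLE h i)
      rw [h0]
      exact mem_union_left _ (mem_union_left _ (mem_union_left _
        (mem_image_of_mem (fun i => (Fin.castLE h i, a (Fin.castLE h i))) hi')))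
    · intro h0
      apply hew (Fin.castLE h i)
      rw [h0]
      exact mem_union_left _ (mem_union_left _ (mem_union_right _
        (mem_image_of_mem (fun i => (Fin.castLE h i, b (Fin.castLE h i))) hi')))
  have hR : ∀ i, i ∉ D → i ∉ Z → e (Fin.castLE h i) ≠ tw h a b β i := by
    intro i hD hZ h0
    apply hew (Fin.castLE h i)
    rw [h0]
    refine mem_union_left _ (mem_union_right _
      (mem_image_of_mem (fun i => (Fin.castLE h i, tw h a b β i)) ?_))
    simp [R, hD, hZ]
  have hO : ∀ p : Fin r, n ≤ (p : ℕ) → e p ≠ a p ∧ e p ≠ b p := by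
    intro p hp
    have hp' : p ∈ O := mem_filter.2 ⟨mem_univ _, hp⟩
    constructor
    · intro h0
      apply hew p
      rw [h0]
      exact mem_union_right _ (mem_union_left _ (mem_image_of_mem (fun p => (p, a p)) hp'))
    · intro h0
      apply hew p
      rw [h0]
      exact mem_union_right _ (mem_union_right _ (mem_image_of_mem (fun p => (p, b p)) hp'))
  choose x hxA hxZ hxR using fun T : Finset (Fin n) =>
    hz fun i => if i ∈ J then decide (i ∈ T) else decide (e (Fin.castLE h i) ≠ a (Fin.castLE h i))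
  refine ⟨e, he, J.powerset.image x, ?_, ?_, ?_⟩
  · intro y hy
    obtain ⟨T, -, rfl⟩ := mem_image.1 hy
    exact hxA T
  · rw [card_image_of_injOn, card_powerset, hJc]
    intro T hT T' hT' hTT'
    have hT1 := mem_powerset.1 hT
    have hT2 := mem_powerset.1 hT'
    ext i
    by_cases hiJ : i ∈ J
    · have h1 := hxZ T i (hJ hiJ)
      have h2 := hxZ T' i (hJ hiJ)
      rw [if_pos hiJ] at h1 h2
      have h3 : x T i = x T' i := congrFun hTT' i
      rw [h1, h2] at h3
      exact decide_eq_decide.1 h3
    · exact ⟨fun h => absurd (hT1 h) hiJ, fun h => absurd (hT2 h) hiJ⟩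
  · intro y hy
    obtain ⟨T, -, rfl⟩ := mem_image.1 hy
    refine ⟨fun i => ?_, hO⟩
    by_cases hiJ : i ∈ J
    · obtain ⟨h1, h2⟩ := hDJ i (Or.inr hiJ)
      unfold tw
      split_ifs
      · exact h1
      · exact h2
    by_cases hiD : i ∈ D
    · obtain ⟨h1, h2⟩ := hDJ i (Or.inl hiD)
      unfold tw
      split_ifs
      · exact h1
      · exact h2
    by_cases hiZ : i ∈ Z
    · have h1 := hxZ T i hiZ
      rw [if_neg hiJ] at h1
      unfold tw
      rw [h1]
      by_cases h2 : e (Fin.castLE h i) = a (Fin.castLE h i)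
      · rw [if_neg (by simp [h2])]
        rw [h2]
        exact hab _
      · rw [if_pos (by simp [h2])]
        exact h2
    · have h1 := hxR T i hiD hiZ
      unfold tw
      rw [h1]
      exact hR i hiD hiZ

/-- The potential. -/
noncomputable def Phi (M n : ℕ) : ℝ := ∑ s ∈ range n, (1 / 2 : ℝ) ^ (s / (2 * M))

lemma Phi_mono (M : ℕ) {m n : ℕ} (h : m ≤ n) : Phi M m ≤ Phi M n :=
  sum_le_sum_of_subset_of_nonneg (range_subset_range.2 h) fun _ _ _ => by positivity

lemma Phi_step (M : ℕ) {m n : ℕ} (hm : 2 ^ ((n - 1) / (2 * M)) ≤ m) (hmn : m ≤ n) :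
    1 + Phi M (n - m) ≤ Phi M n := by
  obtain ⟨l, rfl⟩ := Nat.exists_eq_add_of_le hmn
  have e1 : m + l - m = l := by omega
  have e2 : m + l = l + m := by omega
  rw [e1]
  unfold Phi
  rw [e2, sum_range_add, add_comm]
  refine add_le_add le_rfl ?_
  have h1 : ∀ x ∈ range m, (1 / 2 : ℝ) ^ ((m + l - 1) / (2 * M)) ≤ (1 / 2 : ℝ) ^ ((l + x) / (2 * M)) := by
    intro x hx
    refine pow_le_pow_of_le_one (by norm_num) (by norm_num) (Nat.div_le_div_right ?_)
    have := mem_range.1 hx
    omega
  refine le_trans ?_ (sum_le_sum h1)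
  rw [sum_const, card_range, nsmul_eq_mul]
  have h2 : ((2 : ℝ) ^ ((m + l - 1) / (2 * M))) ≤ m := by exact_mod_cast hm
  calc (1 : ℝ) = 2 ^ ((m + l - 1) / (2 * M)) * (1 / 2) ^ ((m + l - 1) / (2 * M)) := by
        rw [← mul_pow]; norm_num
    _ ≤ m * (1 / 2) ^ ((m + l - 1) / (2 * M)) := mul_le_mul_of_nonneg_right h2 (by positivity)

lemma Phi_le (M : ℕ) (hM : 0 < M) (n : ℕ) : Phi M n ≤ 4 * M := by
  have key : ∀ L : ℕ, Phi M (2 * M * L) = 4 * M * (1 - (1 / 2) ^ L) := by
    intro L
    induction L with
    | zero => simp [Phi]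
    | succ L ih =>
      have h1 : ∑ x ∈ range (2 * M), (1 / 2 : ℝ) ^ ((2 * M * L + x) / (2 * M)) =
          2 * M * (1 / 2) ^ L := by
        have h2 : ∀ x ∈ range (2 * M), (1 / 2 : ℝ) ^ ((2 * M * L + x) / (2 * M)) = (1 / 2) ^ L := by
          intro x hx
          have h3 : (2 * M * L + x) / (2 * M) = L := by
            rw [Nat.mul_add_div (by omega), Nat.div_eq_of_lt (mem_range.1 hx), add_zero]
          rw [h3]
        rw [sum_congr rfl h2, sum_const, card_range, nsmul_eq_mul]
        push_cast
        ring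
      have h4 : Phi M (2 * M * (L + 1)) = Phi M (2 * M * L) +
          ∑ x ∈ range (2 * M), (1 / 2 : ℝ) ^ ((2 * M * L + x) / (2 * M)) := by
        unfold Phi
        rw [Nat.mul_succ, sum_range_add]
      rw [h4, ih, h1, pow_succ]
      ring
  refine (Phi_mono M (show n ≤ 2 * M * n from ?_)).trans ?_
  · exact Nat.le_mul_of_pos_left n (by omega)
  · rw [key n]
    have : (0 : ℝ) ≤ 4 * M * (1 / 2) ^ n := by positivity
    nlinarith

/-- All words of `A` are missed by few edges. -/
theorem kill_all {H : Finset (Fin r → ℕ)} (h : n ≤ r) (hτ : r + (r - n) < tau H)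
    {a b : Fin r → ℕ} (hab : ∀ i, a i ≠ b i) : ∀ (N : ℕ) (A : Finset (Fin n → Bool)), A.card = N →
      ∃ S ⊆ H, (S.card : ℝ) ≤ Phi (n.choose (n / 2)) N ∧
        ∀ x ∈ A, ∃ e ∈ S, Misses h a b e x := by
  classical
  intro N
  induction N using Nat.strong_induction_on with
  | _ N ih =>
    intro A hA
    rcases Nat.eq_zero_or_pos N with h0 | hpos
    · refine ⟨∅, empty_subset _, by subst h0; simp [Phi], fun x hx => ?_⟩
      rw [h0, card_eq_zero] at hA
      rw [hA] at hx
      exact absurd hx (notMem_empty x)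
    · set M := n.choose (n / 2) with hMdef
      have hM : 0 < M := Nat.choose_pos (Nat.div_le_self n 2)
      set j := (N - 1) / (2 * M) with hj
      have hw : walks n (2 * j) < A.card := by
        refine lt_of_le_of_lt (walks_le n (2 * j)) ?_
        rw [← hMdef, hA]
        have : 2 * M * j ≤ N - 1 := Nat.mul_div_le (N - 1) (2 * M)
        calc 2 * j * M = 2 * M * j := by ring
          _ ≤ N - 1 := this
          _ < N := by omega
      obtain ⟨e, he, K, hK, hk, hKm⟩ := kill_step h hτ hab A j hw
      have hKA : K.card ≤ N := hA ▸ card_le_card hK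
      have hK1 : 1 ≤ K.card := le_trans Nat.one_le_two_pow hk
      have hsd : (A \ K).card = N - K.card := by
        rw [card_sdiff_of_subset hK, hA]
      obtain ⟨S, hS, hSc, hSk⟩ := ih (N - K.card) (by omega) (A \ K) hsd
      refine ⟨insert e S, insert_subset he hS, ?_, fun x hx => ?_⟩
      · have h1 : ((insert e S).card : ℝ) ≤ S.card + 1 := by exact_mod_cast card_insert_le e S
        have h2 := Phi_step M (m := K.card) (n := N) hk hKA
        linarith
      · by_cases hxK : x ∈ K
        · exact ⟨e, mem_insert_self _ _, hKm x hxK⟩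
        · obtain ⟨f, hf, hf'⟩ := hSk x (mem_sdiff.2 ⟨hx, hxK⟩)
          exact ⟨f, mem_insert_of_mem hf, hf'⟩

lemma two_letters (Q : Finset ℕ) (hQ : Q.card ≤ 2) : ∃ a b, a ≠ b ∧ ∀ q ∈ Q, q = a ∨ q = b := by
  interval_cases h : Q.card
  · refine ⟨0, 1, by norm_num, fun q hq => ?_⟩
    rw [card_eq_zero.1 h] at hq
    exact absurd hq (notMem_empty q)
  · obtain ⟨x, hx⟩ := card_eq_one.1 h
    refine ⟨x, x + 1, by omega, fun q hq => ?_⟩
    rw [hx, mem_singleton] at hq
    exact Or.inl hq
  · obtain ⟨x, y, hxy, hx⟩ := card_eq_two.1 h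
    refine ⟨x, y, hxy, fun q hq => ?_⟩
    rw [hx, mem_insert, mem_singleton] at hq
    exact hq

/-- If the assigned transversals use at most two vertices in each part and
`k ≥ 4 C(n, n/2)`, `n = r - y`, the cover number is at most `r + y`. -/
theorem two_upper {y k : ℕ} (hk : 4 * (r - y).choose ((r - y) / 2) ≤ k)
    (H : Finset (Fin r → ℕ)) (hH : NarrowCovered 2 r k H) : tau H ≤ r + y := by
  classical
  obtain ⟨C, hC, Y, hY, hQ⟩ := hH
  by_contra hlt
  push Not at hlt
  have hYu : Y = univ := (card_eq_iff_eq_univ Y).1 (by rw [hY, Fintype.card_fin])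
  have hex : ∀ i, ∃ a b, a ≠ b ∧ ∀ S ⊆ H, S.card ≤ k → C S i = a ∨ C S i = b := by
    intro i
    obtain ⟨Q, hQc, hQ'⟩ := hQ i (hYu ▸ mem_univ i)
    obtain ⟨a, b, hab, h⟩ := two_letters Q hQc
    exact ⟨a, b, hab, fun S hS hSk => h _ (hQ' S hS hSk)⟩
  choose a b hab hCab using hex
  have h : r - y ≤ r := Nat.sub_le r y
  obtain ⟨S, hS, hSc, hSk⟩ := kill_all (H := H) h (by omega) hab _
    (univ : Finset (Fin (r - y) → Bool)) rfl
  have hSk' : S.card ≤ k := by
    have h1 := hSc.trans (Phi_le _ (Nat.choose_pos (Nat.div_le_self (r - y) 2)) _)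
    have h2 : S.card ≤ 4 * (r - y).choose ((r - y) / 2) := by exact_mod_cast h1
    exact h2.trans hk
  obtain ⟨e, he, hmiss, hmiss'⟩ := hSk
    (fun i => decide (C S (Fin.castLE h i) = a (Fin.castLE h i))) (mem_univ _)
  obtain ⟨i, hi⟩ := (hC S hS hSk').1 e he
  by_cases hin : (i : ℕ) < r - y
  · have hcast : Fin.castLE h ⟨i, hin⟩ = i := rfl
    apply hmiss ⟨i, hin⟩
    unfold tw
    rw [hcast, ← hi]
    rcases hCab i S hS hSk' with h1 | h1
    · rw [if_pos (by simp [h1])]; exact h1
    · rw [if_neg (by simp [h1]; exact (hab i).symm)]; exact h1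
  · obtain ⟨h1, h2⟩ := hmiss' i (by omega)
    rcases hCab i S hS hSk' with h3 | h3
    · exact h1 (hi.symm.trans h3)
    · exact h2 (hi.symm.trans h3)

end H23KC
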