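import Mathlib

/-!
The numbers `layers r` of the top range of MP_39270e_co.
-/

namespace H23KC

/-- The number of `(r / 2 + 1)`-subsets of an `r`-set, plus, for even `r`, the number of
`(r / 2)`-subsets avoiding a fixed element, and, for odd `r`, the number of
`((r + 3) / 2)`-subsets. -/
def layers (r : ℕ) : ℕ :=
  r.choose (r / 2 + 1) + if Even r then (r - 1).choose (r / 2) else r.choose (r / 2 + 2)

end H23KC
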