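import Mathlib
import Pool.Agent.H19.RPDefs

/-!
Lower bounds for the top range of MP_39270e_co: from a family `F` of subsets of the parts
(the transversals with symbols 0 and 1) to an intersectingly covered `r`-graph with cover
number at least `r + 1`.
-/

namespace H23KC

open H19RP

variable {r : ℕ}

/-- The transversal of the set `X`: symbol 1 on `X`, symbol 0 elsewhere. -/
def ind (X : Finset (Fin r)) : Fin r → ℕ := fun p => if p ∈ X then 1 else 0

lemma meets_ind {X Y : Finset (Fin r)} : Meets (ind X) (ind Y) ↔ ∃ p, (p ∈ X ↔ p ∈ Y) := by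
  unfold Meets ind
  refine exists_congr fun p => ?_
  by_cases h1 : p ∈ X <;> by_cases h2 : p ∈ Y <;> simp [h1, h2]

open Classical in
/-- The hypergraph of all edges (symbols below `t + 3`) that miss at most `L` members of `F`. -/
noncomputable def bigH (t L : ℕ) (F : Finset (Finset (Fin r))) : Finset (Fin r → ℕ) :=
  (Fintype.piFinset fun _ : Fin r => Finset.range (t + 3)).filter
    fun e => (F.filter fun X => ¬ Meets (ind X) e).card ≤ L

lemma mem_bigH {t L : ℕ} {F : Finset (Finset (Fin r))} {e : Fin r → ℕ} :
    e ∈ bigH t L F ↔ (∀ p, e p < t + 3) ∧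
      ∀ G ⊆ F, (∀ X ∈ G, ¬ Meets (ind X) e) → G.card ≤ L := by
  classical
  unfold bigH
  rw [Finset.mem_filter, Fintype.mem_piFinset]
  simp only [Finset.mem_range]
  constructor
  · rintro ⟨h1, h2⟩
    refine ⟨h1, fun G hG hX => (Finset.card_le_card ?_).trans h2⟩
    intro X hXG
    exact Finset.mem_filter.2 ⟨hG hXG, hX X hXG⟩
  · rintro ⟨h1, h2⟩
    exact ⟨h1, h2 _ (Finset.filter_subset _ _) fun X hX => (Finset.mem_filter.1 hX).2⟩

lemma ind_mem_bigH {t L : ℕ} {F : Finset (Finset (Fin r))}
    (hI : ∀ X ∈ F, ∀ Y ∈ F, ∃ p, (p ∈ X ↔ p ∈ Y)) {X : Finset (Fin r)} (hX : X ∈ F) :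
    ind X ∈ bigH t L F := by
  rw [mem_bigH]
  refine ⟨fun p => ?_, fun G hG h => ?_⟩
  · unfold ind; split_ifs <;> omega
  · have : G = ∅ := by
      rw [Finset.eq_empty_iff_forall_notMem]
      intro Y hY
      exact h Y hY (meets_ind.2 (hI Y (hG hY) X hX))
    rw [this]; simp

theorem covered {t L : ℕ} {F : Finset (Finset (Fin r))}
    (hI : ∀ X ∈ F, ∀ Y ∈ F, ∃ p, (p ∈ X ↔ p ∈ Y)) {k : ℕ} (hk : k * L < F.card) :
    IntersectinglyCovered k (bigH t L F) := by
  classical
  have key : ∀ S : Finset (Fin r → ℕ), ∃ X ∈ F, S ⊆ bigH t L F → S.card ≤ k →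
      ∀ e ∈ S, Meets (ind X) e := by
    intro S
    by_contra hcon
    push Not at hcon
    have hne : F.Nonempty := Finset.card_pos.1 (by omega)
    obtain ⟨X0, hX0⟩ := hne
    obtain ⟨hS, hc, -⟩ := hcon X0 hX0
    have hsub : F ⊆ S.biUnion fun e => F.filter fun X => ¬ Meets (ind X) e := by
      intro X hX
      obtain ⟨-, -, e, he, hm⟩ := hcon X hX
      exact Finset.mem_biUnion.2 ⟨e, he, Finset.mem_filter.2 ⟨hX, hm⟩⟩
    have h1 := Finset.card_le_card hsub
    have h2 : (S.biUnion fun e => F.filter fun X => ¬ Meets (ind X) e).card ≤ S.card * L := by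
      refine Finset.card_biUnion_le_card_mul _ _ _ fun e he => ?_
      exact (mem_bigH.1 (hS he)).2 _ (Finset.filter_subset _ _)
        fun X hX => (Finset.mem_filter.1 hX).2
    have h3 : S.card * L ≤ k * L := Nat.mul_le_mul_right L hc
    omega
  choose X hX hX2 using key
  refine ⟨fun S => ind (X S), fun S hS hc => ⟨hX2 S hS hc, ind_mem_bigH hI (hX S), ?_⟩⟩
  intro S' hS' hc'
  exact meets_ind.2 (hI _ (hX S) _ (hX S'))

/-- The condition on `F`: against every pair of sets `Z`, `O` of parts in which the symbols
0 and 1 are forbidden (`t` vertices in all), there is a reply that kills at most `L` members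
of `F`. -/
def Good (t L : ℕ) (F : Finset (Finset (Fin r))) : Prop :=
  ∀ Z O : Finset (Fin r), Z.card + O.card ≤ t → ∃ E0 E1 : Finset (Fin r),
    Disjoint E0 E1 ∧ Disjoint E0 Z ∧ Disjoint E1 O ∧
    ∀ G ⊆ F, (∀ X ∈ G, E0 ⊆ X ∧ Disjoint E1 X) → G.card ≤ L

theorem tau_ge (hr : 1 ≤ r) {t L : ℕ} {F : Finset (Finset (Fin r))} (hF : Good t L F) :
    t + 1 ≤ tau (bigH t L F) := by
  classical
  refine le_csInf ?_ ?_
  · refine ⟨_, (bigH t L F).biUnion (fun e => Finset.univ.image fun p => (p, e p)), ?_, rfl⟩
    intro e he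
    exact ⟨⟨0, hr⟩, Finset.mem_biUnion.2 ⟨e, he, Finset.mem_image.2 ⟨_, Finset.mem_univ _, rfl⟩⟩⟩
  · rintro n ⟨W, hW, rfl⟩
    by_contra hlt
    have hcard : W.card ≤ t := by omega
    let Z : Finset (Fin r) := Finset.univ.filter fun p => (p, 0) ∈ W
    let O : Finset (Fin r) := Finset.univ.filter fun p => (p, 1) ∈ W
    have hZO : Z.card + O.card ≤ t := by
      have h1 : (Z.image fun p => ((p, 0) : Fin r × ℕ)).card = Z.card :=
        Finset.card_image_of_injective _ fun a b h => (Prod.mk.inj h).1
      have h2 : (O.image fun p => ((p, 1) : Fin r × ℕ)).card = O.card :=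
        Finset.card_image_of_injective _ fun a b h => (Prod.mk.inj h).1
      have hd : Disjoint (Z.image fun p => ((p, 0) : Fin r × ℕ))
          (O.image fun p => ((p, 1) : Fin r × ℕ)) := by
        rw [Finset.disjoint_left]
        intro x hx hy
        obtain ⟨a, -, rfl⟩ := Finset.mem_image.1 hx
        obtain ⟨b, -, hb⟩ := Finset.mem_image.1 hy
        exact absurd (Prod.mk.inj hb).2 (by omega)
      have hsub : (Z.image fun p => ((p, 0) : Fin r × ℕ)) ∪
          (O.image fun p => ((p, 1) : Fin r × ℕ)) ⊆ W := by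
        intro x hx
        rcases Finset.mem_union.1 hx with h | h
        · obtain ⟨a, ha, rfl⟩ := Finset.mem_image.1 h
          exact (Finset.mem_filter.1 ha).2
        · obtain ⟨a, ha, rfl⟩ := Finset.mem_image.1 h
          exact (Finset.mem_filter.1 ha).2
      have := Finset.card_le_card hsub
      rw [Finset.card_union_of_disjoint hd, h1, h2] at this
      omega
    obtain ⟨E0, E1, hd, hZ, hO, hK⟩ := hF Z O hZO
    have hfresh : ∀ p : Fin r, ∃ s : ℕ, s < t + 3 ∧ 2 ≤ s ∧ (p, s) ∉ W := by
      intro p
      by_contra hcon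
      push Not at hcon
      have hsub : (Finset.Ico 2 (t + 3)).image (fun s => ((p, s) : Fin r × ℕ)) ⊆ W := by
        intro x hx
        obtain ⟨s, hs, rfl⟩ := Finset.mem_image.1 hx
        rw [Finset.mem_Ico] at hs
        exact hcon s hs.2 hs.1
      have h1 := Finset.card_le_card hsub
      rw [Finset.card_image_of_injective _ fun a b h => (Prod.mk.inj h).2, Nat.card_Ico] at h1
      omega
    choose fr hf1 hf2 hf3 using hfresh
    let e : Fin r → ℕ := fun p => if p ∈ E0 then 0 else if p ∈ E1 then 1 else fr p
    have hkill : ∀ X : Finset (Fin r), ¬ Meets (ind X) e → E0 ⊆ X ∧ Disjoint E1 X := by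
      intro X hX
      constructor
      · intro p hp
        by_contra hpX
        exact hX ⟨p, by simp [ind, e, hp, hpX]⟩
      · rw [Finset.disjoint_left]
        intro p hp hpX
        have hp0 : p ∉ E0 := fun h => Finset.disjoint_left.1 hd h hp
        exact hX ⟨p, by simp [ind, e, hp, hp0, hpX]⟩
    have he : e ∈ bigH t L F := by
      rw [mem_bigH]
      refine ⟨fun p => ?_, fun G hG hX => hK G hG fun X hXG => hkill X (hX X hXG)⟩
      have := hf1 p
      simp only [e]; split_ifs <;> omega
    obtain ⟨p, hp⟩ := hW e he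
    by_cases h0 : p ∈ E0
    · have : e p = 0 := by simp [e, h0]
      rw [this] at hp
      exact Finset.disjoint_left.1 hZ h0 (Finset.mem_filter.2 ⟨Finset.mem_univ _, hp⟩)
    · by_cases h1 : p ∈ E1
      · have : e p = 1 := by simp [e, h0, h1]
        rw [this] at hp
        exact Finset.disjoint_left.1 hO h1 (Finset.mem_filter.2 ⟨Finset.mem_univ _, hp⟩)
      · have : e p = fr p := by simp [e, h0, h1]
        rw [this] at hp
        exact hf3 p hp

lemma le_one_of {F : Finset (Finset (Fin r))} {E0 E1 : Finset (Fin r)}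
    (h : ∀ X ∈ F, ∀ Y ∈ F, E0 ⊆ X → Disjoint E1 X → E0 ⊆ Y → Disjoint E1 Y → X = Y) :
    ∀ G ⊆ F, (∀ X ∈ G, E0 ⊆ X ∧ Disjoint E1 X) → G.card ≤ 1 := by
  intro G hG hX
  rw [Finset.card_le_one]
  intro X h1 Y h2
  exact h X (hG h1) Y (hG h2) (hX X h1).1 (hX X h1).2 (hX Y h2).1 (hX Y h2).2

/-- Odd `r = 2 s - 1`: the empty set and the layers `s`, `s + 1`. -/
theorem good_odd {s : ℕ} (hr : r + 1 = 2 * s) {F : Finset (Finset (Fin r))}
    (hF : ∀ X ∈ F, X = ∅ ∨ X.card = s ∨ X.card = s + 1) : Good r 1 F := by
  classical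
  intro Z O hZO
  by_cases hO : O.card ≤ s
  · refine ⟨O \ Z, Oᶜ, ?_, Finset.sdiff_disjoint, ?_, le_one_of ?_⟩
    · rw [Finset.disjoint_left]
      intro p hp hq
      exact (Finset.mem_compl.1 hq) (Finset.mem_sdiff.1 hp).1
    · exact disjoint_compl_left
    · have key : ∀ X ∈ F, O \ Z ⊆ X → Disjoint Oᶜ X →
          (X = ∅ ∧ O.card < s) ∨ (X = O ∧ O.card = s) := by
        intro X hX h1 h2
        have hXO : X ⊆ O := by
          intro p hp
          by_contra hpO
          exact Finset.disjoint_left.1 h2 (Finset.mem_compl.2 hpO) hp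
        have hc := Finset.card_le_card hXO
        rcases hF X hX with h | h | h
        · left
          refine ⟨h, ?_⟩
          subst h
          have hOZ : O ⊆ Z := by
            intro p hp
            by_contra hpZ
            have := h1 (Finset.mem_sdiff.2 ⟨hp, hpZ⟩)
            simp at this
          have := Finset.card_le_card hOZ
          omega
        · right
          exact ⟨Finset.eq_of_subset_of_card_le hXO (by omega), by omega⟩
        · omega
      intro X hX Y hY a b c d
      rcases key X hX a b with h | h <;> rcases key Y hY c d with h' | h'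
      · rw [h.1, h'.1]
      · omega
      · omega
      · rw [h.1, h'.1]
  · refine ⟨Zᶜ, Z \ O, ?_, disjoint_compl_left, Finset.sdiff_disjoint, le_one_of ?_⟩
    · rw [Finset.disjoint_left]
      intro p hp hq
      exact (Finset.mem_compl.1 hp) (Finset.mem_sdiff.1 hq).1
    · have key : ∀ X ∈ F, Zᶜ ⊆ X → X = Zᶜ := by
        intro X hX h1
        have hc := Finset.card_le_card h1
        have hz : (Zᶜ).card = r - Z.card := by rw [Finset.card_compl, Fintype.card_fin]
        rcases hF X hX with h | h | h
        · rw [h, Finset.card_empty] at hc; omega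
        · omega
        · exact (Finset.eq_of_subset_of_card_le h1 (by omega)).symm
      intro X hX Y hY a _ c _
      rw [key X hX a, key Y hY c]

/-- Even `r = 2 s`: the empty set, the `s`-sets avoiding the part `q`, the layer `s + 1`. -/
theorem good_even {s : ℕ} (hr : r = 2 * s) (q : Fin r) {F : Finset (Finset (Fin r))}
    (hF : ∀ X ∈ F, X = ∅ ∨ (X.card = s ∧ q ∉ X) ∨ X.card = s + 1) : Good r 1 F := by
  classical
  intro Z O hZO
  by_cases hO : O.card ≤ s
  · by_cases hC : O = Z ∧ O.card = s ∧ q ∉ O
    · obtain ⟨hZ, hs, hq⟩ := hC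
      refine ⟨{q}, Oᶜ.erase q, ?_, ?_, ?_, le_one_of ?_⟩
      · simp
      · rw [← hZ]; simpa using hq
      · exact Finset.disjoint_of_subset_left (Finset.erase_subset _ _) disjoint_compl_left
      · have key : ∀ X ∈ F, {q} ⊆ X → Disjoint (Oᶜ.erase q) X → X = insert q O := by
          intro X hX h1 h2
          have hqX : q ∈ X := h1 (Finset.mem_singleton_self q)
          have hXO : X ⊆ insert q O := by
            intro p hp
            by_contra hpO
            rw [Finset.mem_insert, not_or] at hpO
            exact Finset.disjoint_left.1 h2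
              (Finset.mem_erase.2 ⟨hpO.1, Finset.mem_compl.2 hpO.2⟩) hp
          rcases hF X hX with h | h | h
          · subst h; simp at hqX
          · exact absurd hqX h.2
          · exact Finset.eq_of_subset_of_card_le hXO (by
              rw [Finset.card_insert_of_notMem hq]; omega)
        intro X hX Y hY a b c d
        rw [key X hX a b, key Y hY c d]
    · refine ⟨O \ Z, Oᶜ, ?_, Finset.sdiff_disjoint, ?_, le_one_of ?_⟩
      · rw [Finset.disjoint_left]
        intro p hp hq
        exact (Finset.mem_compl.1 hq) (Finset.mem_sdiff.1 hp).1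
      · exact disjoint_compl_left
      · have key : ∀ X ∈ F, O \ Z ⊆ X → Disjoint Oᶜ X →
            (X = ∅ ∧ O ⊆ Z) ∨ (X = O ∧ O.card = s ∧ q ∉ O) := by
          intro X hX h1 h2
          have hXO : X ⊆ O := by
            intro p hp
            by_contra hpO
            exact Finset.disjoint_left.1 h2 (Finset.mem_compl.2 hpO) hp
          have hc := Finset.card_le_card hXO
          rcases hF X hX with h | h | h
          · left
            refine ⟨h, ?_⟩
            subst h
            intro p hp
            by_contra hpZ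
            have := h1 (Finset.mem_sdiff.2 ⟨hp, hpZ⟩)
            simp at this
          · right
            have := Finset.eq_of_subset_of_card_le hXO (by omega)
            exact ⟨this, by omega, this ▸ h.2⟩
          · omega
        have hno : ∀ _ : O ⊆ Z, ∀ _ : O.card = s, q ∉ O → False := by
          intro h1 h2 h3
          exact hC ⟨Finset.eq_of_subset_of_card_le h1 (by omega), h2, h3⟩
        intro X hX Y hY a b c d
        rcases key X hX a b with h | h <;> rcases key Y hY c d with h' | h'
        · rw [h.1, h'.1]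
        · exact (hno h.2 h'.2.1 h'.2.2).elim
        · exact (hno h'.2 h.2.1 h.2.2).elim
        · rw [h.1, h'.1]
  · refine ⟨Zᶜ, Z \ O, ?_, disjoint_compl_left, Finset.sdiff_disjoint, le_one_of ?_⟩
    · rw [Finset.disjoint_left]
      intro p hp hq
      exact (Finset.mem_compl.1 hp) (Finset.mem_sdiff.1 hq).1
    · have key : ∀ X ∈ F, Zᶜ ⊆ X → X = Zᶜ := by
        intro X hX h1
        have hc := Finset.card_le_card h1
        have hz : (Zᶜ).card = r - Z.card := by rw [Finset.card_compl, Fintype.card_fin]
        rcases hF X hX with h | h | h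
        · rw [h, Finset.card_empty] at hc; omega
        · omega
        · exact (Finset.eq_of_subset_of_card_le h1 (by omega)).symm
      intro X hX Y hY a _ c _
      rw [key X hX a, key Y hY c]

/-- One layer `s ≥ r / 2` against `r + 2 y + 1` vertices. -/
theorem good_layer {s y : ℕ} (hs : s ≤ r) (hr : r ≤ 2 * s) {F : Finset (Finset (Fin r))}
    (hF : ∀ X ∈ F, X.card = s) : Good (r + 2 * y + 1) ((s + y).choose y) F := by
  classical
  intro Z O hZO
  by_cases hO : O.card ≤ s + y
  · refine ⟨O \ Z, Oᶜ, ?_, Finset.sdiff_disjoint, disjoint_compl_left, ?_⟩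
    · rw [Finset.disjoint_left]
      intro p hp hq
      exact (Finset.mem_compl.1 hq) (Finset.mem_sdiff.1 hp).1
    · intro G hG hX
      have hsub : G ⊆ Finset.powersetCard s O := by
        intro X hXG
        rw [Finset.mem_powersetCard]
        refine ⟨?_, hF X (hG hXG)⟩
        intro p hp
        by_contra hpO
        exact Finset.disjoint_left.1 (hX X hXG).2 (Finset.mem_compl.2 hpO) hp
      have h1 := Finset.card_le_card hsub
      rw [Finset.card_powersetCard] at h1
      have h2 : O.card.choose s ≤ (s + y).choose s := Nat.choose_le_choose s hO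
      rw [Nat.choose_symm_add] at h2
      exact h1.trans h2
  · refine ⟨Zᶜ, Z \ O, ?_, disjoint_compl_left, Finset.sdiff_disjoint, ?_⟩
    · rw [Finset.disjoint_left]
      intro p hp hq
      exact (Finset.mem_compl.1 hp) (Finset.mem_sdiff.1 hq).1
    · intro G hG hX
      have hsub : G.image compl ⊆ Finset.powersetCard (r - s) Z := by
        intro X' hX'
        obtain ⟨X, hXG, rfl⟩ := Finset.mem_image.1 hX'
        rw [Finset.mem_powersetCard]
        refine ⟨?_, ?_⟩
        · have := (hX X hXG).1
          intro p hp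
          by_contra hpZ
          exact (Finset.mem_compl.1 hp) (this (Finset.mem_compl.2 hpZ))
        · rw [Finset.card_compl, Fintype.card_fin, hF X (hG hXG)]
      have h1 := Finset.card_le_card hsub
      rw [Finset.card_image_of_injective _ compl_injective, Finset.card_powersetCard] at h1
      have h2 : Z.card.choose (r - s) ≤ (r - s + y).choose (r - s) :=
        Nat.choose_le_choose _ (by omega)
      rw [Nat.choose_symm_add] at h2
      have h3 : (r - s + y).choose y ≤ (s + y).choose y := Nat.choose_le_choose _ (by omega)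
      exact h1.trans (h2.trans h3)

end H23KC
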