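import Mathlib
import Pool.Agent.H19.RPDefs

/-!
Upper bound for the top range of MP_39270e_co: if `2 ^ r ≤ 2 * k`, every `k`-intersectingly
covered `r`-partite `r`-graph has an edge that meets all edges.
-/

namespace H23KC

open H19RP

variable {r : ℕ}

/-- The tensor of a transversal. -/
noncomputable def vec (A : Fin r → ℕ) : Finset (Fin r) → ℚ := fun I => ∏ p ∈ I, (-(A p : ℚ))

/-- The pairing with a transversal. -/
noncomputable def fn (B : Fin r → ℕ) : (Finset (Fin r) → ℚ) →ₗ[ℚ] ℚ where
  toFun v := ∑ I : Finset (Fin r), v I * ∏ p ∈ Iᶜ, (B p : ℚ)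
  map_add' v w := by
    simp only [Pi.add_apply, add_mul, Finset.sum_add_distrib]
  map_smul' c v := by
    simp only [Pi.smul_apply, smul_eq_mul, RingHom.id_apply, Finset.mul_sum, mul_assoc]

lemma fn_vec (A B : Fin r → ℕ) : fn B (vec A) = ∏ p, ((B p : ℚ) - A p) := by
  have h : ∀ p : Fin r, ((B p : ℚ) - A p) = (-(A p : ℚ)) + B p := fun p => by ring
  simp only [h, Finset.prod_add, fn, vec, LinearMap.coe_mk, AddHom.coe_mk, Finset.powerset_univ]
  refine Finset.sum_congr rfl fun I _ => ?_
  rw [Finset.compl_eq_univ_sdiff]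

lemma fn_vec_eq_zero (A B : Fin r → ℕ) : fn B (vec A) = 0 ↔ Meets A B := by
  rw [fn_vec, Finset.prod_eq_zero_iff]
  constructor
  · rintro ⟨p, -, hp⟩
    refine ⟨p, ?_⟩
    have : (B p : ℚ) = A p := by linarith
    exact_mod_cast this.symm
  · rintro ⟨p, hp⟩
    exact ⟨p, Finset.mem_univ _, by rw [hp]; ring⟩

lemma meets_comm {A B : Fin r → ℕ} (h : Meets A B) : Meets B A := by
  obtain ⟨p, hp⟩ := h; exact ⟨p, hp.symm⟩

theorem steps_bound (n : ℕ) (C e : Fin n → (Fin r → ℕ)) (h1 : ∀ i j, Meets (C i) (C j))
    (h2 : ∀ i j, j < i → Meets (C i) (e j)) (h3 : ∀ i, ¬ Meets (C i) (e i)) :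
    2 * n ≤ 2 ^ r := by
  have hli : LinearIndependent ℚ
      (Sum.elim (fun i => vec (C i)) (fun i => vec (e i)) :
        Fin n ⊕ Fin n → (Finset (Fin r) → ℚ)) := by
    rw [Fintype.linearIndependent_iff]
    intro g hg
    rw [Fintype.sum_sum_type] at hg
    simp only [Sum.elim_inl, Sum.elim_inr] at hg
    -- pairing with C j
    have hC : ∀ j, ∑ i, g (Sum.inr i) * fn (C j) (vec (e i)) = 0 := by
      intro j
      have := congrArg (fn (C j)) hg
      rw [map_add, map_sum, map_sum, map_zero] at this
      simp only [map_smul, smul_eq_mul] at this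
      rw [Finset.sum_eq_zero, zero_add] at this
      · exact this
      · intro i _
        rw [(fn_vec_eq_zero _ _).2 (h1 i j), mul_zero]
    have hy : ∀ m : ℕ, ∀ j : Fin n, n - 1 - (j : ℕ) ≤ m → g (Sum.inr j) = 0 := by
      intro m
      induction m using Nat.strong_induction_on with
      | _ m ih =>
        intro j hj
        have hj' := hC j
        rw [Finset.sum_eq_single j] at hj'
        · rcases mul_eq_zero.1 hj' with h | h
          · exact h
          · exact absurd (meets_comm ((fn_vec_eq_zero _ _).1 h)) (h3 j)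
        · intro i _ hij
          rcases lt_or_gt_of_ne hij with h | h
          · rw [(fn_vec_eq_zero _ _).2 (meets_comm (h2 j i h)), mul_zero]
          · have h' : (j : ℕ) < i := h
            have hi := i.2
            rw [ih (n - 1 - i) (by omega) i le_rfl, zero_mul]
        · intro h; exact absurd (Finset.mem_univ _) h
    have hy' : ∀ j, g (Sum.inr j) = 0 := fun j => hy _ j le_rfl
    have hE : ∀ j, ∑ i, g (Sum.inl i) * fn (e j) (vec (C i)) = 0 := by
      intro j
      have := congrArg (fn (e j)) hg
      rw [map_add, map_sum, map_sum, map_zero] at this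
      simp only [map_smul, smul_eq_mul, hy', zero_mul, Finset.sum_const_zero, add_zero] at this
      exact this
    have hx : ∀ m : ℕ, ∀ j : Fin n, (j : ℕ) ≤ m → g (Sum.inl j) = 0 := by
      intro m
      induction m using Nat.strong_induction_on with
      | _ m ih =>
        intro j hj
        have hj' := hE j
        rw [Finset.sum_eq_single j] at hj'
        · rcases mul_eq_zero.1 hj' with h | h
          · exact h
          · exact absurd ((fn_vec_eq_zero _ _).1 h) (h3 j)
        · intro i _ hij
          rcases lt_or_gt_of_ne hij with h | h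
          · have h' : (i : ℕ) < j := h
            rw [ih i (by omega) i le_rfl, zero_mul]
          · rw [(fn_vec_eq_zero _ _).2 (h2 i j h), mul_zero]
        · intro h; exact absurd (Finset.mem_univ _) h
    rintro (j | j)
    · exact hx _ j le_rfl
    · exact hy' j
  have := hli.fintype_card_le_finrank
  rw [Fintype.card_sum, Fintype.card_fin, Module.finrank_fintype_fun_eq_card,
    Fintype.card_finset, Fintype.card_fin] at this
  omega

/-- The successive edge sets. -/
noncomputable def stp (C : Finset (Fin r → ℕ) → (Fin r → ℕ)) (nxt : (Fin r → ℕ) → (Fin r → ℕ)) :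
    ℕ → Finset (Fin r → ℕ)
  | 0 => ∅
  | n + 1 => insert (nxt (C (stp C nxt n))) (stp C nxt n)

theorem exists_edge_cover (k : ℕ) (hk : 2 ^ r ≤ 2 * k) (H : Finset (Fin r → ℕ))
    (hH : IntersectinglyCovered k H) : ∃ c ∈ H, ∀ e ∈ H, Meets c e := by
  classical
  obtain ⟨C, hC⟩ := hH
  by_contra hcon
  push Not at hcon
  choose! nxt hn1 hn2 using hcon
  have hS : ∀ n, n ≤ k → stp C nxt n ⊆ H ∧ (stp C nxt n).card ≤ n := by
    intro n
    induction n with
    | zero => intro _; simp [stp]
    | succ n ih =>
      intro hnk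
      obtain ⟨h1, h2⟩ := ih (by omega)
      have hmem := (hC _ h1 (by omega)).2.1
      refine ⟨?_, ?_⟩
      · simp only [stp]
        exact Finset.insert_subset (hn1 _ hmem) h1
      · simp only [stp]
        exact (Finset.card_insert_le _ _).trans (by omega)
  have hmono : ∀ i j, j < i → nxt (C (stp C nxt j)) ∈ stp C nxt i := by
    intro i
    induction i with
    | zero => intro j hj; omega
    | succ i ih =>
      intro j hj
      simp only [stp, Finset.mem_insert]
      rcases Nat.lt_succ_iff_lt_or_eq.1 hj with h | h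
      · exact Or.inr (ih j h)
      · exact Or.inl (by rw [h])
  have hb := steps_bound (r := r) (k + 1) (fun i => C (stp C nxt i)) (fun i => nxt (C (stp C nxt i)))
    (fun i j => (hC _ (hS i (by omega)).1 ((hS i (by omega)).2.trans (by omega))).2.2 _
      (hS j (by omega)).1 ((hS j (by omega)).2.trans (by omega)))
    (fun i j hij => (hC _ (hS i (by omega)).1 ((hS i (by omega)).2.trans (by omega))).1 _
      (hmono i j hij))
    (fun i => hn2 _ (hC _ (hS i (by omega)).1 ((hS i (by omega)).2.trans (by omega))).2.1)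
  omega

theorem tau_le_of_edge (H : Finset (Fin r → ℕ)) (c : Fin r → ℕ) (hc : ∀ e ∈ H, Meets c e) :
    tau H ≤ r := by
  classical
  have h1 : (Finset.univ.image fun p => (p, c p)).card ∈
      {n | ∃ W : Finset (Fin r × ℕ), IsCover W H ∧ W.card = n} := by
    refine ⟨Finset.univ.image fun p => (p, c p), ?_, rfl⟩
    intro e he
    obtain ⟨p, hp⟩ := hc e he
    exact ⟨p, Finset.mem_image.2 ⟨p, Finset.mem_univ _, by rw [hp]⟩⟩
  exact (Nat.sInf_le h1).trans (Finset.card_image_le.trans (by simp))

end H23KC
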