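import Mathlib
import Pool.Agent.H19.RPDefs
import Pool.Agent.H23.KC.Defs
import Pool.Agent.H23.KC.Upper
import Pool.Agent.H23.KC.Lower

/-!
The top range of MP_39270e_co: assembling the upper bound and the families of two layers.
-/

namespace H23KC

open H19RP

variable {r : ℕ}

lemma Good.mono {t L : ℕ} {F F' : Finset (Finset (Fin r))} (h : Good t L F) (hs : F' ⊆ F) :
    Good t L F' := by
  intro Z O hZO
  obtain ⟨E0, E1, h1, h2, h3, h4⟩ := h Z O hZO
  exact ⟨E0, E1, h1, h2, h3, fun G hG => h4 G (hG.trans hs)⟩

lemma agree_of {X Y : Finset (Fin r)} (h : Y ≠ Xᶜ) : ∃ p, (p ∈ X ↔ p ∈ Y) := by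
  by_contra hcon
  push Not at hcon
  apply h
  ext p
  rw [Finset.mem_compl]
  have := hcon p
  tauto

lemma exists_family (hr : 2 ≤ r) : ∃ F : Finset (Finset (Fin r)), F.card = layers r ∧ ∅ ∉ F ∧
    Good r 1 (insert ∅ F) ∧ (∀ X ∈ F, ∀ Y ∈ F, Y ≠ Xᶜ) ∧ (4 ≤ r → ∀ X ∈ F, X ≠ Finset.univ) := by
  classical
  rcases Nat.even_or_odd r with hev | hodd
  · obtain ⟨s, hs⟩ := hev
    have hs' : r = 2 * s := by omega
    let q : Fin r := ⟨0, by omega⟩
    refine ⟨Finset.powersetCard s (Finset.univ.erase q) ∪ Finset.powersetCard (s + 1) Finset.univ,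
      ?_, ?_, ?_, ?_, ?_⟩
    · rw [Finset.card_union_of_disjoint, Finset.card_powersetCard, Finset.card_powersetCard,
        Finset.card_erase_of_mem (Finset.mem_univ _), Finset.card_univ, Fintype.card_fin]
      · unfold layers
        rw [if_pos ⟨s, hs⟩]
        have : r / 2 = s := by omega
        rw [this]; ring
      · rw [Finset.disjoint_left]
        intro X h1 h2
        rw [Finset.mem_powersetCard] at h1 h2
        omega
    · rw [Finset.mem_union, Finset.mem_powersetCard, Finset.mem_powersetCard, Finset.card_empty]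
      omega
    · refine good_even hs' q ?_
      intro X hX
      rcases Finset.mem_insert.1 hX with h | h
      · exact Or.inl h
      · rcases Finset.mem_union.1 h with h | h
        · rw [Finset.mem_powersetCard] at h
          exact Or.inr (Or.inl ⟨h.2, fun hq => by simpa using h.1 hq⟩)
        · rw [Finset.mem_powersetCard] at h
          exact Or.inr (Or.inr h.2)
    · intro X hX Y hY hXY
      have hc : Y.card = r - X.card := by rw [hXY, Finset.card_compl, Fintype.card_fin]
      rcases Finset.mem_union.1 hX with h | h <;> rcases Finset.mem_union.1 hY with h' | h' <;>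
        rw [Finset.mem_powersetCard] at h h'
      · have h1 : q ∉ X := fun hq => by simpa using h.1 hq
        have h2 : q ∉ Y := fun hq => by simpa using h'.1 hq
        rw [hXY, Finset.mem_compl] at h2
        exact h2 h1
      · omega
      · omega
      · omega
    · intro h4 X hX hXu
      have hc : X.card = r := by rw [hXu, Finset.card_univ, Fintype.card_fin]
      rcases Finset.mem_union.1 hX with h | h <;> rw [Finset.mem_powersetCard] at h <;> omega
  · obtain ⟨s, hs⟩ := hodd
    have hs' : r + 1 = 2 * (s + 1) := by omega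
    refine ⟨Finset.powersetCard (s + 1) Finset.univ ∪ Finset.powersetCard (s + 2) Finset.univ,
      ?_, ?_, ?_, ?_, ?_⟩
    · rw [Finset.card_union_of_disjoint, Finset.card_powersetCard, Finset.card_powersetCard,
        Finset.card_univ, Fintype.card_fin]
      · unfold layers
        rw [if_neg (Nat.not_even_iff_odd.2 ⟨s, hs⟩)]
        have : r / 2 = s := by omega
        rw [this]
      · rw [Finset.disjoint_left]
        intro X h1 h2
        rw [Finset.mem_powersetCard] at h1 h2
        omega
    · rw [Finset.mem_union, Finset.mem_powersetCard, Finset.mem_powersetCard, Finset.card_empty]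
      omega
    · refine good_odd hs' ?_
      intro X hX
      rcases Finset.mem_insert.1 hX with h | h
      · exact Or.inl h
      · rcases Finset.mem_union.1 h with h | h <;> rw [Finset.mem_powersetCard] at h
        · exact Or.inr (Or.inl h.2)
        · exact Or.inr (Or.inr h.2)
    · intro X hX Y hY hXY
      have hc : Y.card = r - X.card := by rw [hXY, Finset.card_compl, Fintype.card_fin]
      rcases Finset.mem_union.1 hX with h | h <;> rcases Finset.mem_union.1 hY with h' | h' <;>
        rw [Finset.mem_powersetCard] at h h' <;> omega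
    · intro h4 X hX hXu
      have hc : X.card = r := by rw [hXu, Finset.card_univ, Fintype.card_fin]
      rcases Finset.mem_union.1 hX with h | h <;> rw [Finset.mem_powersetCard] at h <;> omega

/-- Two layers. -/
theorem lower_two (hr : 2 ≤ r) {k : ℕ} (hk : k < layers r) :
    ∃ H : Finset (Fin r → ℕ), IntersectinglyCovered k H ∧ r + 1 ≤ tau H := by
  obtain ⟨F, hc, -, hG, hI, -⟩ := exists_family hr
  refine ⟨bigH r 1 F, covered (fun X hX Y hY => agree_of (hI X hX Y hY)) ?_,
    tau_ge (by omega) (hG.mono (Finset.subset_insert _ _))⟩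
  omega

/-- Two layers and the empty set. -/
theorem lower_three (hr : 4 ≤ r) {k : ℕ} (hk : k ≤ layers r) :
    ∃ H : Finset (Fin r → ℕ), IntersectinglyCovered k H ∧ r + 1 ≤ tau H := by
  classical
  obtain ⟨F, hc, he, hG, hI, hU⟩ := exists_family (r := r) (by omega)
  have hI' : ∀ X ∈ insert ∅ F, ∀ Y ∈ insert ∅ F, Y ≠ Xᶜ := by
    intro X hX Y hY hXY
    rcases Finset.mem_insert.1 hX with h | h <;> rcases Finset.mem_insert.1 hY with h' | h'
    · subst h; subst h'
      have := congrArg Finset.card hXY
      rw [Finset.card_compl, Fintype.card_fin, Finset.card_empty] at this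
      omega
    · subst h
      exact hU hr Y h' (by rw [hXY, Finset.compl_empty])
    · subst h'
      refine hU hr X h ?_
      rw [← compl_compl X, ← hXY, Finset.compl_empty]
    · exact hI X h Y h' hXY
  refine ⟨bigH r 1 (insert ∅ F), covered (fun X hX Y hY => agree_of (hI' X hX Y hY)) ?_,
    tau_ge (by omega) hG⟩
  rw [Finset.card_insert_of_notMem he]
  omega

theorem lower_small (hr : 2 ≤ r) (hr' : r ≤ 5) {k : ℕ} (hk : k < 2 ^ (r - 1)) :
    ∃ H : Finset (Fin r → ℕ), IntersectinglyCovered k H ∧ r + 1 ≤ tau H := by
  obtain h | h | h | h : r = 2 ∨ r = 3 ∨ r = 4 ∨ r = 5 := by omega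
  · subst h; exact lower_two (by norm_num) (hk.trans_le (by decide))
  · subst h; exact lower_two (by norm_num) (hk.trans_le (by decide))
  · subst h
    have : layers 4 = 7 := by decide
    exact lower_three (by norm_num) (by rw [this]; norm_num at hk; omega)
  · subst h
    have : layers 5 = 15 := by decide
    exact lower_three (by norm_num) (by rw [this]; norm_num at hk; omega)

/-- The edges meeting a fixed edge: cover number `r` for every `k`. -/
theorem exists_tau_eq (hr : 1 ≤ r) (k : ℕ) :
    ∃ H : Finset (Fin r → ℕ), IntersectinglyCovered k H ∧ tau H = r := by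
  classical
  let H : Finset (Fin r → ℕ) := (Fintype.piFinset fun _ : Fin r => Finset.range (r + 1)).filter
    fun e => Meets (fun _ => 0) e
  have hmem : ∀ e, e ∈ H ↔ (∀ p, e p < r + 1) ∧ ∃ p, 0 = e p := by
    intro e
    simp only [H, Finset.mem_filter, Fintype.mem_piFinset, Finset.mem_range, Meets]
  have h0 : (fun _ : Fin r => 0) ∈ H := (hmem _).2 ⟨fun _ => by omega, ⟨0, hr⟩, rfl⟩
  refine ⟨H, ⟨fun _ _ => 0, fun S hS _ => ⟨fun e he => ((hmem e).1 (hS he)).2, h0,
    fun S' _ _ => ⟨⟨0, hr⟩, rfl⟩⟩⟩, le_antisymm ?_ ?_⟩
  · exact tau_le_of_edge H (fun _ => 0) fun e he => ((hmem e).1 he).2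
  · refine le_csInf ?_ ?_
    · refine ⟨_, H.biUnion (fun e => Finset.univ.image fun p => (p, e p)), ?_, rfl⟩
      intro e he
      exact ⟨⟨0, hr⟩, Finset.mem_biUnion.2
        ⟨e, he, Finset.mem_image.2 ⟨_, Finset.mem_univ _, rfl⟩⟩⟩
    · rintro n ⟨W, hW, rfl⟩
      by_contra hlt
      have hcard : W.card < r := by omega
      have hp : ∃ p : Fin r, (p, 0) ∉ W := by
        by_contra hcon
        push Not at hcon
        have hsub : Finset.univ.image (fun p : Fin r => ((p, 0) : Fin r × ℕ)) ⊆ W := by
          intro x hx
          obtain ⟨p, -, rfl⟩ := Finset.mem_image.1 hx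
          exact hcon p
        have h1 := Finset.card_le_card hsub
        rw [Finset.card_image_of_injective _ fun a b h => (Prod.mk.inj h).1, Finset.card_univ,
          Fintype.card_fin] at h1
        omega
      obtain ⟨p0, hp0⟩ := hp
      have hfresh : ∀ p : Fin r, ∃ s : ℕ, s < r + 1 ∧ (p, s) ∉ W := by
        intro p
        by_contra hcon
        push Not at hcon
        have hsub : (Finset.range (r + 1)).image (fun s => ((p, s) : Fin r × ℕ)) ⊆ W := by
          intro x hx
          obtain ⟨s, hs, rfl⟩ := Finset.mem_image.1 hx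
          exact hcon s (Finset.mem_range.1 hs)
        have h1 := Finset.card_le_card hsub
        rw [Finset.card_image_of_injective _ fun a b h => (Prod.mk.inj h).2,
          Finset.card_range] at h1
        omega
      choose fr hf1 hf2 using hfresh
      let e : Fin r → ℕ := fun p => if p = p0 then 0 else fr p
      have he : e ∈ H := by
        rw [hmem]
        refine ⟨fun p => ?_, p0, by simp [e]⟩
        have := hf1 p
        simp only [e]; split_ifs <;> omega
      obtain ⟨p, hp⟩ := hW e he
      by_cases h : p = p0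
      · have : e p = 0 := by simp [e, h]
        rw [this, h] at hp
        exact hp0 hp
      · have : e p = fr p := by simp [e, h]
        rw [this] at hp
        exact hf2 p hp

/-- One layer: larger cover numbers for slightly smaller `k`. -/
theorem lower_layer (hr : 1 ≤ r) (y k : ℕ)
    (hk : k * (r / 2 + 1 + y).choose y < r.choose (r / 2 + 1)) :
    ∃ H : Finset (Fin r → ℕ), IntersectinglyCovered k H ∧ r + 2 * y + 2 ≤ tau H := by
  classical
  have hs : r / 2 + 1 ≤ r := by
    by_contra hcon
    rw [Nat.choose_eq_zero_of_lt (by omega)] at hk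
    omega
  let F : Finset (Finset (Fin r)) := Finset.powersetCard (r / 2 + 1) Finset.univ
  have hF : ∀ X ∈ F, X.card = r / 2 + 1 := fun X hX => (Finset.mem_powersetCard.1 hX).2
  refine ⟨bigH (r + 2 * y + 1) ((r / 2 + 1 + y).choose y) F,
    covered (fun X hX Y hY => agree_of ?_) ?_, tau_ge hr (good_layer hs (by omega) hF)⟩
  · intro hXY
    have hc : Y.card = r - X.card := by rw [hXY, Finset.card_compl, Fintype.card_fin]
    rw [hF X hX, hF Y hY] at hc
    omega
  · rw [Finset.card_powersetCard, Finset.card_univ, Fintype.card_fin]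
    exact hk

end H23KC
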