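import Mathlib
import Pool.Agent.H19.RPDefs
import Pool.Agent.H19.RPUpper

/-!
Upper bound `tau H ≤ m r` for `k > 4 r ^ 2 (m + 1) ^ (r / m)` (MP_39270e_co).
-/

namespace H23KC

open H19RP Finset

variable {r : ℕ}

/-- The monomials of degree at most `m` in each variable at the point `e`. -/
noncomputable def monos (m : ℕ) (e : Fin r → ℕ) : (Fin r → Fin (m + 1)) → ℚ :=
  fun a => ∏ p, (e p : ℚ) ^ (a p : ℕ)

/-- The polynomial in the variable of the part `p` which vanishes at the vertices of `D`. -/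
noncomputable def pol {m : ℕ} (D : Fin m → (Fin r → ℕ)) (p : Fin r) : Polynomial ℚ :=
  ∏ i, (Polynomial.X - Polynomial.C (D i p : ℚ))

lemma pol_eval {m : ℕ} (D : Fin m → (Fin r → ℕ)) (p : Fin r) (x : ℚ) :
    ∑ j : Fin (m + 1), x ^ (j : ℕ) * (pol D p).coeff j = ∏ i, (x - D i p) := by
  have hdeg : (pol D p).natDegree < m + 1 := by
    have : (pol D p).natDegree = m := by
      unfold pol
      rw [Polynomial.natDegree_finsetProd_X_sub_C_eq_card, Finset.card_univ, Fintype.card_fin]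
    omega
  have h1 : (pol D p).eval x = ∏ i, (x - D i p) := by
    unfold pol
    rw [Polynomial.eval_prod]
    simp
  rw [← h1, Polynomial.eval_eq_sum_range' hdeg, Finset.sum_range]
  exact Finset.sum_congr rfl fun j _ => mul_comm _ _

lemma pair_monos {m : ℕ} (D : Fin m → (Fin r → ℕ)) (e : Fin r → ℕ) :
    ∑ a : Fin r → Fin (m + 1), monos m e a * ∏ p, (pol D p).coeff (a p) =
      ∏ p, ∏ i, ((e p : ℚ) - D i p) := by
  have h1 : ∀ p, ∏ i, ((e p : ℚ) - D i p) =
      ∑ j : Fin (m + 1), (e p : ℚ) ^ (j : ℕ) * (pol D p).coeff j := fun p => (pol_eval D p _).symm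
  simp only [h1]
  rw [Finset.prod_univ_sum]
  simp only [Fintype.piFinset_univ, monos, Finset.prod_mul_distrib]

lemma pair_eq_zero {m : ℕ} (D : Fin m → (Fin r → ℕ)) (e : Fin r → ℕ) :
    ∏ p, ∏ i, ((e p : ℚ) - D i p) = 0 ↔ ∃ i, Meets (D i) e := by
  rw [Finset.prod_eq_zero_iff]
  constructor
  · rintro ⟨p, -, hp⟩
    obtain ⟨i, -, hi⟩ := Finset.prod_eq_zero_iff.1 hp
    refine ⟨i, p, ?_⟩
    have : (e p : ℚ) = D i p := by linarith
    exact_mod_cast this.symm
  · rintro ⟨i, p, hp⟩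
    refine ⟨p, Finset.mem_univ _, Finset.prod_eq_zero (Finset.mem_univ i) ?_⟩
    rw [hp]; ring

theorem card_le_pow (m : ℕ) (S : Finset (Fin r → ℕ)) (D : (Fin r → ℕ) → Fin m → (Fin r → ℕ))
    (h1 : ∀ e ∈ S, ∀ i, ¬ Meets (D e i) e)
    (h2 : ∀ e ∈ S, ∀ e' ∈ S, e' ≠ e → ∃ i, Meets (D e i) e') : S.card ≤ (m + 1) ^ r := by
  classical
  have hli : LinearIndependent ℚ (fun e : S => monos m (e : Fin r → ℕ)) := by
    rw [Fintype.linearIndependent_iff]
    intro g hg e0
    have h : ∑ e : S, g e * ∏ p, ∏ i, (((e : Fin r → ℕ) p : ℚ) - D e0 i p) = 0 := by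
      have h3 : ∀ a : Fin r → Fin (m + 1), ∑ e : S, g e * monos m (e : Fin r → ℕ) a = 0 := by
        intro a
        have := congrFun hg a
        simpa [Finset.sum_apply] using this
      calc ∑ e : S, g e * ∏ p, ∏ i, (((e : Fin r → ℕ) p : ℚ) - D e0 i p)
          = ∑ e : S, ∑ a : Fin r → Fin (m + 1),
              g e * monos m (e : Fin r → ℕ) a * ∏ p, (pol (D e0) p).coeff (a p) := by
            refine Finset.sum_congr rfl fun e _ => ?_
            rw [← pair_monos, Finset.mul_sum]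
            exact Finset.sum_congr rfl fun a _ => by ring
        _ = ∑ a : Fin r → Fin (m + 1), (∑ e : S, g e * monos m (e : Fin r → ℕ) a) *
              ∏ p, (pol (D e0) p).coeff (a p) := by
            rw [Finset.sum_comm]
            exact Finset.sum_congr rfl fun a _ => by rw [Finset.sum_mul]
        _ = 0 := Finset.sum_eq_zero fun a _ => by rw [h3 a, zero_mul]
    rw [Finset.sum_eq_single e0] at h
    · rcases mul_eq_zero.1 h with h | h
      · exact h
      · obtain ⟨i, hi⟩ := (pair_eq_zero _ _).1 h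
        exact absurd hi (h1 _ e0.2 i)
    · intro e _ he
      have : ∃ i, Meets (D e0 i) (e : Fin r → ℕ) :=
        h2 _ e0.2 _ e.2 (fun h => he (Subtype.ext h))
      rw [(pair_eq_zero _ _).2 this, mul_zero]
    · intro h; exact absurd (Finset.mem_univ _) h
  have := hli.fintype_card_le_finrank
  rw [Fintype.card_coe, Module.finrank_fintype_fun_eq_card, Fintype.card_fun, Fintype.card_fin,
    Fintype.card_fin] at this
  exact this

theorem exists_crit (m : ℕ) (H : Finset (Fin r → ℕ))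
    (hH : ∀ D : Fin m → (Fin r → ℕ), ∃ e ∈ H, ∀ i, ¬ Meets (D i) e) :
    ∃ S ⊆ H, S.card ≤ (m + 1) ^ r ∧
      ∀ D : Fin m → (Fin r → ℕ), ∃ e ∈ S, ∀ i, ¬ Meets (D i) e := by
  classical
  let Q : Finset (Finset (Fin r → ℕ)) := H.powerset.filter
    (fun S => ∀ D : Fin m → (Fin r → ℕ), ∃ e ∈ S, ∀ i, ¬ Meets (D i) e)
  have hQ : Q.Nonempty := ⟨H, Finset.mem_filter.2 ⟨Finset.mem_powerset.2 subset_rfl, hH⟩⟩
  obtain ⟨S, hS, hmin⟩ := Finset.exists_min_image Q Finset.card hQ
  obtain ⟨hSH, hSp⟩ := Finset.mem_filter.1 hS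
  have hSH' := Finset.mem_powerset.1 hSH
  refine ⟨S, hSH', ?_, hSp⟩
  have key : ∀ e ∈ S, ∃ D : Fin m → (Fin r → ℕ), (∀ i, ¬ Meets (D i) e) ∧
      ∀ e' ∈ S, e' ≠ e → ∃ i, Meets (D i) e' := by
    intro e he
    have hnot : S.erase e ∉ Q := by
      intro h
      have := hmin _ h
      rw [Finset.card_erase_of_mem he] at this
      have := Finset.card_pos.2 ⟨e, he⟩
      omega
    have : ¬ ∀ D : Fin m → (Fin r → ℕ), ∃ e' ∈ S.erase e, ∀ i, ¬ Meets (D i) e' := by
      intro h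
      exact hnot (Finset.mem_filter.2 ⟨Finset.mem_powerset.2
        ((Finset.erase_subset _ _).trans hSH'), h⟩)
    push Not at this
    obtain ⟨D, hD⟩ := this
    have hD' : ∀ e' ∈ S, e' ≠ e → ∃ i, Meets (D i) e' :=
      fun e' he' hne => hD e' (Finset.mem_erase.2 ⟨hne, he'⟩)
    refine ⟨D, ?_, hD'⟩
    obtain ⟨e1, he1, h1⟩ := hSp D
    by_cases h : e1 = e
    · rwa [h] at h1
    · obtain ⟨i, hi⟩ := hD' e1 he1 h
      exact absurd hi (h1 i)
  choose! D hD1 hD2 using key
  exact card_le_pow m S D hD1 hD2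

theorem greedy_tr (k : ℕ) (S : Finset (Fin r → ℕ))
    (hcov : ∀ U ⊆ S, U.card ≤ k → ∃ T : Fin r → ℕ, ∀ e ∈ U, Meets T e)
    (ε : ℝ) (hε0 : 0 < ε) (hε1 : ε ≤ 1)
    (hsmall : 2 ^ r * (r.factorial : ℝ) * (1 - ε / 2) ^ k < 1) (s : ℕ) :
    ∃ D : Fin s → (Fin r → ℕ),
      ((S.filter (fun e => ∀ i, ¬ Meets (D i) e)).card : ℝ) ≤ ε ^ s * (S.card : ℝ) := by
  classical
  induction s with
  | zero =>
    refine ⟨fun i => i.elim0, ?_⟩
    rw [pow_zero, one_mul]
    exact_mod_cast Finset.card_filter_le _ _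
  | succ s ih =>
    obtain ⟨D, hD⟩ := ih
    set S' := S.filter (fun e => ∀ i, ¬ Meets (D i) e) with hS'
    obtain ⟨T, hT⟩ : ∃ T : Fin r → ℕ,
        ((S'.filter (fun e => ¬ Meets T e)).card : ℝ) ≤ ε * (S'.card : ℝ) := by
      by_cases hne : S'.Nonempty
      · have hcov' : ∀ u : Fin k → (Fin r → ℕ), (∀ l, u l ∈ S') →
            ∃ T : Fin r → ℕ, ∀ l, Meets T (u l) := by
          intro u hu
          obtain ⟨T, hT⟩ := hcov (univ.image u) (by
            intro e he
            obtain ⟨l, _, rfl⟩ := Finset.mem_image.mp he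
            exact (Finset.mem_filter.mp (hu l)).1) (by
            refine Finset.card_image_le.trans ?_
            simp)
          exact ⟨T, fun l => hT _ (Finset.mem_image_of_mem _ (Finset.mem_univ _))⟩
        obtain ⟨T, hT⟩ := claimA k S' hne hcov' ε hε0 hε1 hsmall
        exact ⟨T, by convert hT⟩
      · refine ⟨fun _ => 0, ?_⟩
        rw [Finset.not_nonempty_iff_eq_empty.mp hne]
        simp
    refine ⟨Fin.cons T D, ?_⟩
    have h1 : S.filter (fun e => ∀ i, ¬ Meets ((Fin.cons T D : Fin (s + 1) → (Fin r → ℕ)) i) e) ⊆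
        S'.filter (fun e => ¬ Meets T e) := by
      intro e he
      rw [Finset.mem_filter] at he
      rw [Finset.mem_filter, hS', Finset.mem_filter]
      refine ⟨⟨he.1, fun i => ?_⟩, ?_⟩
      · have := he.2 i.succ
        simpa using this
      · have := he.2 0
        simpa using this
    calc _ ≤ ((S'.filter (fun e => ¬ Meets T e)).card : ℝ) := by
          exact_mod_cast Finset.card_le_card h1
      _ ≤ ε * (S'.card : ℝ) := hT
      _ ≤ ε * (ε ^ s * (S.card : ℝ)) := mul_le_mul_of_nonneg_left hD hε0.le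
      _ = _ := by ring

theorem stair {r m k : ℕ} (hr : 1 ≤ r) (hm : 1 ≤ m)
    (hk : (4 * r ^ 2) ^ m * (m + 1) ^ r < k ^ m) (H : Finset (Fin r → ℕ))
    (hcov : ∀ S ⊆ H, S.card ≤ k → ∃ T : Fin r → ℕ, ∀ e ∈ S, Meets T e) :
    tau H ≤ m * r := by
  classical
  by_contra hcon
  push Not at hcon
  have hrR : (1 : ℝ) ≤ r := by exact_mod_cast hr
  -- no `m` transversals cover `H`
  have hno : ∀ D : Fin m → (Fin r → ℕ), ∃ e ∈ H, ∀ i, ¬ Meets (D i) e := by
    intro D
    by_contra h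
    push Not at h
    have h1 : IsCover (univ.image (fun x : Fin m × Fin r => (x.2, D x.1 x.2))) H := by
      intro e he
      obtain ⟨i, p, hp⟩ := h e he
      exact ⟨p, Finset.mem_image.2 ⟨(i, p), Finset.mem_univ _, by simp [hp]⟩⟩
    have h2 := tau_le_of_cover H _ h1
    have h3 : (univ.image (fun x : Fin m × Fin r => (x.2, D x.1 x.2))).card ≤ m * r := by
      refine Finset.card_image_le.trans ?_
      simp
    omega
  obtain ⟨S, hSH, hSc, hS⟩ := exists_crit m H hno
  -- `k` is large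
  have hk4 : 4 * r ^ 2 < k := by
    by_contra h
    push Not at h
    have h1 : k ^ m ≤ (4 * r ^ 2) ^ m := Nat.pow_le_pow_left h m
    have h2 : (4 * r ^ 2) ^ m ≤ (4 * r ^ 2) ^ m * (m + 1) ^ r :=
      Nat.le_mul_of_pos_right _ (Nat.pow_pos (by omega))
    omega
  have hkpos : (0 : ℝ) < k := by
    have : 0 < k := by omega
    exact_mod_cast this
  set ε : ℝ := 4 * (r : ℝ) ^ 2 / k with hε
  have hεpos : 0 < ε := by positivity
  have hε1 : ε ≤ 1 := by
    rw [hε, div_le_one hkpos]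
    have : ((4 * r ^ 2 : ℕ) : ℝ) < k := by exact_mod_cast hk4
    push_cast at this
    exact this.le
  have hsm : 2 ^ r * (r.factorial : ℝ) * (1 - ε / 2) ^ k < 1 := by
    have h1 : (r.factorial : ℝ) ≤ (r : ℝ) ^ r := by exact_mod_cast Nat.factorial_le_pow r
    have h2 : (2 : ℝ) ^ r * (r.factorial : ℝ) ≤ Real.exp (r * (2 * r - 1)) := by
      calc (2 : ℝ) ^ r * (r.factorial : ℝ) ≤ 2 ^ r * (r : ℝ) ^ r :=
            mul_le_mul_of_nonneg_left h1 (by positivity)
        _ = (2 * (r : ℝ)) ^ r := by rw [mul_pow]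
        _ ≤ (Real.exp (2 * r - 1)) ^ r := by
            apply pow_le_pow_left₀ (by positivity)
            have := Real.add_one_le_exp (2 * (r : ℝ) - 1)
            linarith
        _ = Real.exp (r * (2 * r - 1)) := by rw [← Real.exp_nat_mul]
    have h3 : (1 - ε / 2) ^ k ≤ Real.exp (-(2 * (r : ℝ) ^ 2)) := by
      calc (1 - ε / 2) ^ k ≤ (Real.exp (-(ε / 2))) ^ k := by
            apply pow_le_pow_left₀ (by linarith)
            have := Real.add_one_le_exp (-(ε / 2))
            linarith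
        _ = Real.exp (k * (-(ε / 2))) := by rw [← Real.exp_nat_mul]
        _ = Real.exp (-(2 * (r : ℝ) ^ 2)) := by
            congr 1
            rw [hε]; field_simp; norm_num
    calc 2 ^ r * (r.factorial : ℝ) * (1 - ε / 2) ^ k
        ≤ Real.exp (r * (2 * r - 1)) * Real.exp (-(2 * (r : ℝ) ^ 2)) := by
          apply mul_le_mul h2 h3 (pow_nonneg (by linarith) _) (Real.exp_pos _).le
      _ = Real.exp (-r) := by rw [← Real.exp_add]; congr 1; ring
      _ < 1 := by rw [Real.exp_lt_one_iff]; linarith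
  obtain ⟨D, hD⟩ := greedy_tr k S (fun U hU hUk => hcov U (hU.trans hSH) hUk) ε hεpos hε1 hsm m
  -- fewer than one edge of `S` is missed
  have hlt : ε ^ m * (S.card : ℝ) < 1 := by
    have h1 : (S.card : ℝ) ≤ ((m : ℝ) + 1) ^ r := by exact_mod_cast hSc
    have h2 : (4 * (r : ℝ) ^ 2) ^ m * ((m : ℝ) + 1) ^ r < (k : ℝ) ^ m := by exact_mod_cast hk
    have h3 : 0 < (k : ℝ) ^ m := by positivity
    calc ε ^ m * (S.card : ℝ) ≤ ε ^ m * ((m : ℝ) + 1) ^ r :=
          mul_le_mul_of_nonneg_left h1 (by positivity)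
      _ = (4 * (r : ℝ) ^ 2) ^ m * ((m : ℝ) + 1) ^ r / (k : ℝ) ^ m := by
          rw [hε, div_pow]; ring
      _ < 1 := by rw [div_lt_one h3]; exact h2
  have h0 : (S.filter (fun e => ∀ i, ¬ Meets (D i) e)).card = 0 := by
    have h1 := lt_of_le_of_lt hD hlt
    have h2 : (S.filter (fun e => ∀ i, ¬ Meets (D i) e)).card < 1 := by exact_mod_cast h1
    omega
  obtain ⟨e, he, hmiss⟩ := hS D
  rw [Finset.card_eq_zero] at h0
  have : e ∈ S.filter (fun e => ∀ i, ¬ Meets (D i) e) := Finset.mem_filter.2 ⟨he, hmiss⟩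
  rw [h0] at this
  simp at this

end H23KC
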