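import Mathlib
import Pool.Agent.H19.RPDefs
import Pool.Agent.H23.KC.NDefs
import Pool.Agent.H23.KC.Main
import Pool.Agent.H23.KC.Stair

/-!
Narrow systems of MP_39270e_co: in `y` parts the covering transversals use at most `q` vertices.
-/

namespace H23KC

open H19RP Finset

variable {r : ℕ}

theorem covered_narrow {t L : ℕ} {F : Finset (Finset (Fin r))}
    (hI : ∀ X ∈ F, ∀ Y ∈ F, ∃ p, (p ∈ X ↔ p ∈ Y)) {k : ℕ} (hk : k * L < F.card) :
    NarrowCovered 2 r k (bigH t L F) := by
  classical
  have key : ∀ S : Finset (Fin r → ℕ), ∃ X ∈ F, S ⊆ bigH t L F → S.card ≤ k →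
      ∀ e ∈ S, Meets (ind X) e := by
    intro S
    by_contra hcon
    push Not at hcon
    have hne : F.Nonempty := Finset.card_pos.1 (by omega)
    obtain ⟨X0, hX0⟩ := hne
    obtain ⟨hS, hc, -⟩ := hcon X0 hX0
    have hsub : F ⊆ S.biUnion fun e => F.filter fun X => ¬ Meets (ind X) e := by
      intro X hX
      obtain ⟨-, -, e, he, hm⟩ := hcon X hX
      exact Finset.mem_biUnion.2 ⟨e, he, Finset.mem_filter.2 ⟨hX, hm⟩⟩
    have h1 := Finset.card_le_card hsub
    have h2 : (S.biUnion fun e => F.filter fun X => ¬ Meets (ind X) e).card ≤ S.card * L := by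
      refine Finset.card_biUnion_le_card_mul _ _ _ fun e he => ?_
      exact (mem_bigH.1 (hS he)).2 _ (Finset.filter_subset _ _)
        fun X hX => (Finset.mem_filter.1 hX).2
    have h3 : S.card * L ≤ k * L := Nat.mul_le_mul_right L hc
    omega
  choose X hX hX2 using key
  refine ⟨fun S => ind (X S), fun S hS hc => ⟨hX2 S hS hc, ind_mem_bigH hI (hX S), ?_⟩,
    Finset.univ, by simp, ?_⟩
  · intro S' hS' hc'
    exact meets_ind.2 (hI _ (hX S) _ (hX S'))
  · intro i _
    refine ⟨{0, 1}, by simp, fun S _ _ => ?_⟩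
    by_cases h : i ∈ X S <;> simp [ind, h]

/-- One layer: the examples are narrow. -/
theorem layer_narrow (hr : 1 ≤ r) (y k : ℕ)
    (hk : k * (r / 2 + 1 + y).choose y < r.choose (r / 2 + 1)) :
    ∃ H : Finset (Fin r → ℕ), NarrowCovered 2 r k H ∧ r + 2 * y + 2 ≤ tau H := by
  classical
  have hs : r / 2 + 1 ≤ r := by
    by_contra hcon
    rw [Nat.choose_eq_zero_of_lt (by omega)] at hk
    omega
  let F : Finset (Finset (Fin r)) := Finset.powersetCard (r / 2 + 1) Finset.univ
  have hF : ∀ X ∈ F, X.card = r / 2 + 1 := fun X hX => (Finset.mem_powersetCard.1 hX).2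
  refine ⟨bigH (r + 2 * y + 1) ((r / 2 + 1 + y).choose y) F,
    covered_narrow (fun X hX Y hY => agree_of ?_) ?_, tau_ge hr (good_layer hs (by omega) hF)⟩
  · intro hXY
    have hc : Y.card = r - X.card := by rw [hXY, Finset.card_compl, Fintype.card_fin]
    rw [hF X hX, hF Y hY] at hc
    omega
  · rw [Finset.card_powersetCard, Finset.card_univ, Fintype.card_fin]
    exact hk

/-- Upper bound for systems which are narrow in `y` parts. -/
theorem narrow_upper {q y k m : ℕ} (hm : 1 ≤ m)
    (hk : (4 * r ^ 2) ^ m * (m + 1) ^ (r - y) < k ^ m)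
    (H : Finset (Fin r → ℕ)) (hH : NarrowCovered q y k H) :
    tau H ≤ m * (r - y) + q * y := by
  classical
  obtain ⟨C, hC, Y, hYc, hQ⟩ := hH
  choose! Q hQc hQm using hQ
  have hk1 : 1 ≤ k := by
    by_contra h
    have : k = 0 := by omega
    rw [this, zero_pow (by omega)] at hk
    omega
  have hcc : Yᶜ.card = r - y := by rw [Finset.card_compl, Fintype.card_fin, hYc]
  -- the parts outside `Y` in increasing order
  let f : Fin (r - y) → Fin r := fun j => (Yᶜ).orderEmbOfFin hcc j
  have hf : ∀ i, i ∉ Y → ∃ j, f j = i := by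
    intro i hi
    have h1 : i ∈ Set.range ((Yᶜ).orderEmbOfFin hcc) := by
      rw [Finset.range_orderEmbOfFin]
      simpa using hi
    exact h1
  let res : (Fin r → ℕ) → (Fin (r - y) → ℕ) := fun e j => e (f j)
  -- all the vertices used in the parts of `Y`
  let W0 : Finset (Fin r × ℕ) := Y.biUnion (fun i => (Q i).image (fun v => (i, v)))
  have hW0c : W0.card ≤ q * y := by
    calc W0.card ≤ Y.card * q :=
          Finset.card_biUnion_le_card_mul _ _ _ fun i hi =>
            Finset.card_image_le.trans (hQc i hi)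
      _ = q * y := by rw [hYc, mul_comm]
  let H' : Finset (Fin r → ℕ) := H.filter (fun e => ∀ i ∈ Y, e i ∉ Q i)
  let H'' : Finset (Fin (r - y) → ℕ) := H'.image res
  -- the remaining edges are covered by transversals of the other parts
  have hcov : ∀ U ⊆ H'', U.card ≤ k → ∃ T : Fin (r - y) → ℕ, ∀ u ∈ U, Meets T u := by
    intro U hU hUc
    have hg : ∀ u ∈ U, ∃ e ∈ H', res e = u := fun u hu => Finset.mem_image.1 (hU hu)
    choose! g hg1 hg2 using hg
    have hSH : U.image g ⊆ H := by
      intro e he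
      obtain ⟨u, hu, rfl⟩ := Finset.mem_image.1 he
      exact (Finset.mem_filter.1 (hg1 u hu)).1
    have hSc : (U.image g).card ≤ k := Finset.card_image_le.trans hUc
    refine ⟨res (C (U.image g)), fun u hu => ?_⟩
    obtain ⟨i, hi⟩ := (hC _ hSH hSc).1 (g u) (Finset.mem_image_of_mem g hu)
    have hiY : i ∉ Y := by
      intro hiY
      have h1 := hQm i hiY _ hSH hSc
      rw [hi] at h1
      exact (Finset.mem_filter.1 (hg1 u hu)).2 i hiY h1
    obtain ⟨j, hj⟩ := hf i hiY
    refine ⟨j, ?_⟩
    rw [← hg2 u hu]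
    show C (U.image g) (f j) = g u (f j)
    rw [hj]
    exact hi
  have hfin : ∃ W'' : Finset (Fin (r - y) × ℕ), IsCover W'' H'' ∧ W''.card ≤ m * (r - y) := by
    by_cases hn : r - y = 0
    · have he : H'' = ∅ := by
        by_contra hne
        obtain ⟨u, hu⟩ := Finset.nonempty_iff_ne_empty.2 hne
        obtain ⟨T, hT⟩ := hcov {u} (by simpa using hu) (by
          rw [Finset.card_singleton]
          exact hk1)
        obtain ⟨j, -⟩ := hT u (Finset.mem_singleton_self u)
        have := j.2
        omega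
      refine ⟨∅, ?_, by simp⟩
      rw [he]
      intro e he'
      simp at he'
    · have h1 : tau H'' ≤ m * (r - y) := by
        refine stair (k := k) (by omega) hm ?_ H'' hcov
        refine lt_of_le_of_lt ?_ hk
        have h2 : (r - y) ^ 2 ≤ r ^ 2 := Nat.pow_le_pow_left (by omega) 2
        exact Nat.mul_le_mul_right _ (Nat.pow_le_pow_left (Nat.mul_le_mul_left 4 h2) m)
      obtain ⟨W'', hW, hWc⟩ := exists_tau_cover (by omega) H''
      exact ⟨W'', hW, by omega⟩
  obtain ⟨W'', hW'', hWc''⟩ := hfin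
  let W1 : Finset (Fin r × ℕ) := W''.image (fun x => (f x.1, x.2))
  have hcover : IsCover (W0 ∪ W1) H := by
    intro e he
    by_cases h : e ∈ H'
    · obtain ⟨j, hj⟩ := hW'' (res e) (Finset.mem_image_of_mem _ h)
      exact ⟨f j, Finset.mem_union_right _ (Finset.mem_image.2 ⟨_, hj, rfl⟩)⟩
    · have h2 : ∃ i ∈ Y, e i ∈ Q i := by
        by_contra hcon
        push Not at hcon
        exact h (Finset.mem_filter.2 ⟨he, hcon⟩)
      obtain ⟨i, hi, hiQ⟩ := h2
      exact ⟨i, Finset.mem_union_left _ (Finset.mem_biUnion.2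
        ⟨i, hi, Finset.mem_image_of_mem _ hiQ⟩)⟩
  have h1 := tau_le_of_cover H _ hcover
  have h2 : (W0 ∪ W1).card ≤ q * y + m * (r - y) :=
    (Finset.card_union_le _ _).trans (Nat.add_le_add hW0c (Finset.card_image_le.trans hWc''))
  omega

end H23KC
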