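import Mathlib
import Pool.Agent.H19.RPDefs
import Pool.Agent.H23.KC.NDefs
import Pool.Agent.H23.KC.Below
import Pool.Agent.H23.KC.Narrow

/-!
Below the top range of MP_39270e_co, with narrow examples: for `k ≤ c ^ r` with `c < 2` the cover
number can be `(1 + δ) r`, with covering transversals that use two vertices of each part.
-/

namespace H23KC

open H19RP Filter

theorem below_narrow (c : ℝ) (hc0 : 0 ≤ c) (hc : c < 2) : ∃ δ : ℝ, 0 < δ ∧ ∃ R : ℕ, ∀ r k : ℕ,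
    R ≤ r → (k : ℝ) ≤ c ^ r →
    ∃ H : Finset (Fin r → ℕ), NarrowCovered 2 r k H ∧ (1 + δ) * r ≤ tau H := by
  -- parameters
  obtain ⟨x, hx0, hx1, hx⟩ : ∃ x : ℝ, 0 < x ∧ x < 1 ∧ c < 2 * Real.sqrt (1 - x) := by
    have hcont : Tendsto (fun x : ℝ => 2 * Real.sqrt (1 - x)) (nhdsWithin 0 (Set.Ioi 0))
        (nhds (2 * Real.sqrt (1 - 0))) :=
      ((continuous_const.mul (Real.continuous_sqrt.comp (continuous_const.sub
        continuous_id))).tendsto 0).mono_left nhdsWithin_le_nhds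
    rw [sub_zero, Real.sqrt_one, mul_one] at hcont
    have h1 := hcont.eventually (lt_mem_nhds hc)
    have h2 : ∀ᶠ x : ℝ in nhdsWithin 0 (Set.Ioi 0), x ∈ Set.Ioo (0 : ℝ) 1 :=
      Ioo_mem_nhdsGT (by norm_num)
    obtain ⟨x, ha, hb⟩ := (h1.and h2).exists
    exact ⟨x, hb.1, hb.2, ha⟩
  have hsq : 0 < Real.sqrt (1 - x) := Real.sqrt_pos.2 (by linarith)
  obtain ⟨η, hη0, hη⟩ : ∃ η : ℝ, 0 < η ∧ c * x ^ (-η) < 2 * Real.sqrt (1 - x) := by
    have hcont : Tendsto (fun η : ℝ => c * x ^ (-η)) (nhdsWithin 0 (Set.Ioi 0))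
        (nhds (c * x ^ (-(0 : ℝ)))) := by
      refine Tendsto.mono_left ?_ nhdsWithin_le_nhds
      exact (continuous_const.mul ((Real.continuous_const_rpow hx0.ne').comp
        continuous_neg)).tendsto 0
    rw [neg_zero, Real.rpow_zero, mul_one] at hcont
    have h1 := hcont.eventually (gt_mem_nhds hx)
    have h2 : ∀ᶠ η : ℝ in nhdsWithin 0 (Set.Ioi 0), η ∈ Set.Ioi (0 : ℝ) := self_mem_nhdsWithin
    obtain ⟨η, ha, hb⟩ := (h1.and h2).exists
    exact ⟨η, hb, ha⟩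
  set ρ : ℝ := c * x ^ (-η) / (2 * Real.sqrt (1 - x)) with hρ
  have hxη : 0 < x ^ (-η) := Real.rpow_pos_of_pos hx0 _
  have hρ0 : 0 ≤ ρ := by positivity
  have hρ1 : ρ < 1 := (div_lt_one (by positivity)).2 hη
  have hlim : Tendsto (fun r : ℕ => (2 / (1 - x)) * (((r : ℝ) * ρ ^ r) + ρ ^ r)) atTop
      (nhds ((2 / (1 - x)) * (0 + 0))) :=
    ((tendsto_self_mul_const_pow_of_lt_one hρ0 hρ1).add
      (tendsto_pow_atTop_nhds_zero_of_lt_one hρ0 hρ1)).const_mul _
  rw [add_zero, mul_zero] at hlim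
  obtain ⟨R, hR⟩ := eventually_atTop.1 (hlim.eventually (gt_mem_nhds one_pos))
  refine ⟨2 * η, by positivity, max R 2, fun r k hr hk => ?_⟩
  have hr2 : 2 ≤ r := (le_max_right _ _).trans hr
  have hRr := hR r ((le_max_left _ _).trans hr)
  set y : ℕ := ⌊η * r⌋₊ with hy
  have hyr : (y : ℝ) ≤ η * r := Nat.floor_le (by positivity)
  have hyr' : η * r < y + 1 := Nat.lt_floor_add_one _
  have hnum : k * (r / 2 + 1 + y).choose y < r.choose (r / 2 + 1) := by
    have h1x : 0 < 1 - x := by linarith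
    have hch := choose_bound (r / 2 + 1) y hx0 hx1
    have hpow := pow_le_choose r hr2
    -- x ^ y ≥ x ^ (η r)
    have hxy : x ^ (η * r) ≤ x ^ y := by
      rw [← Real.rpow_natCast x y]
      exact Real.rpow_le_rpow_of_exponent_ge hx0 hx1.le hyr
    -- (1 - x) ^ (r / 2 + 1) ≥ (1 - x) * sqrt (1 - x) ^ r
    have hsr : (1 - x) * Real.sqrt (1 - x) ^ r ≤ (1 - x) ^ (r / 2 + 1) := by
      have e1 : (1 - x) ^ (r / 2 + 1) = (1 - x) * Real.sqrt (1 - x) ^ (2 * (r / 2)) := by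
        rw [pow_mul, Real.sq_sqrt h1x.le, pow_succ]; ring
      rw [e1]
      refine mul_le_mul_of_nonneg_left ?_ h1x.le
      exact pow_le_pow_of_le_one hsq.le (Real.sqrt_le_one.2 (by linarith)) (by omega)
    have hxr : x ^ (η * r) = (x ^ (-η))⁻¹ ^ r := by
      rw [← Real.rpow_neg hx0.le, neg_neg, ← Real.rpow_natCast, ← Real.rpow_mul hx0.le]
    have hkey : ((r / 2 + 1 + y).choose y : ℝ) *
        ((x ^ (-η))⁻¹ ^ r * ((1 - x) * Real.sqrt (1 - x) ^ r)) ≤ 1 := by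
      refine le_trans (mul_le_mul_of_nonneg_left ?_ (by positivity)) hch
      rw [← hxr]
      exact mul_le_mul hxy hsr (by positivity) (by positivity)
    have hρr : c ^ r = ρ ^ r * 2 ^ r * (Real.sqrt (1 - x) ^ r * (x ^ (-η))⁻¹ ^ r) := by
      rw [← mul_pow, ← mul_pow, ← mul_pow]
      congr 1
      rw [hρ]
      field_simp
    have hRr' : 2 * ((r : ℝ) + 1) * ρ ^ r < 1 - x := by
      have : (2 / (1 - x)) * (((r : ℝ) * ρ ^ r) + ρ ^ r) =
          (2 * ((r : ℝ) + 1) * ρ ^ r) / (1 - x) := by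
        field_simp
      rw [this, div_lt_one h1x] at hRr
      exact hRr
    have hCpos : (0 : ℝ) ≤ ((r / 2 + 1 + y).choose y : ℝ) := by positivity
    have hfin : (k : ℝ) * ((r / 2 + 1 + y).choose y : ℝ) < (r.choose (r / 2 + 1) : ℝ) := by
      have hchpos : (0 : ℝ) < (r.choose (r / 2 + 1) : ℝ) := by
        exact_mod_cast Nat.choose_pos (by omega)
      calc (k : ℝ) * ((r / 2 + 1 + y).choose y : ℝ)
          ≤ c ^ r * ((r / 2 + 1 + y).choose y : ℝ) := mul_le_mul_of_nonneg_right hk hCpos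
        _ = (ρ ^ r * 2 ^ r / (1 - x)) * (((r / 2 + 1 + y).choose y : ℝ) *
            ((x ^ (-η))⁻¹ ^ r * ((1 - x) * Real.sqrt (1 - x) ^ r))) := by
            rw [hρr]; field_simp
        _ ≤ (ρ ^ r * 2 ^ r / (1 - x)) * 1 :=
            mul_le_mul_of_nonneg_left hkey (by positivity)
        _ ≤ (ρ ^ r * (2 * ((r : ℝ) + 1) * (r.choose (r / 2 + 1) : ℝ)) / (1 - x)) := by
            rw [mul_one]; gcongr
        _ = (2 * ((r : ℝ) + 1) * ρ ^ r) * (r.choose (r / 2 + 1) : ℝ) / (1 - x) := by ring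
        _ < (1 - x) * (r.choose (r / 2 + 1) : ℝ) / (1 - x) := by gcongr
        _ = (r.choose (r / 2 + 1) : ℝ) := by field_simp
    exact_mod_cast hfin
  obtain ⟨H, hH, ht⟩ := layer_narrow (r := r) (by omega) y k hnum
  refine ⟨H, hH, ?_⟩
  have : ((r + 2 * y + 2 : ℕ) : ℝ) ≤ tau H := by exact_mod_cast ht
  push_cast at this
  nlinarith

end H23KC
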