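import Mathlib
import Pool.Agent.H19.RPDefs
import Pool.Agent.H19.RPUpper

/-!
MP_39270e_co: the function `f_3` at `k = 3`, and the range `k < r`.
-/

namespace H23KC

open H19RP Finset

/-- Three pairwise meeting triples with different first entries. -/
private lemma three_meet {b0 b1 b2 c0 c1 c2 : ℕ} (h01 : b0 = b1 ∨ c0 = c1)
    (h02 : b0 = b2 ∨ c0 = c2) (h12 : b1 = b2 ∨ c1 = c2) :
    (b0 = b1 ∧ b1 = b2) ∨ (c0 = c1 ∧ c1 = c2) := by omega

private lemma core (P : ℕ → ℕ → ℕ → Prop)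
    (hI : ∀ a b c a' b' c', P a b c → P a' b' c' → a = a' ∨ b = b' ∨ c = c')
    (h2 : ∀ x, ∃ a b c, P a b c ∧ b ≠ x) (h3 : ∀ x, ∃ a b c, P a b c ∧ c ≠ x)
    {a0 a1 a2 b c0 c1 c2 : ℕ} (p0 : P a0 b c0) (p1 : P a1 b c1) (p2 : P a2 b c2)
    (h01 : a0 ≠ a1) (h02 : a0 ≠ a2) (h12 : a1 ≠ a2) :
    ∃ x1 x2 x3, ∀ a b c, P a b c →
      (a = x1 ∧ b = x2) ∨ (a = x1 ∧ c = x3) ∨ (b = x2 ∧ c = x3) := by
  obtain ⟨d, e, f, pD, hD⟩ := h2 b
  obtain ⟨g, h, l, pG, hG⟩ := h3 f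
  have d0 := hI _ _ _ _ _ _ pD p0
  have d1 := hI _ _ _ _ _ _ pD p1
  have d2 := hI _ _ _ _ _ _ pD p2
  have g0 := hI _ _ _ _ _ _ pG p0
  have g1 := hI _ _ _ _ _ _ pG p1
  have g2 := hI _ _ _ _ _ _ pG p2
  have gd := hI _ _ _ _ _ _ pG pD
  have d0' : d = a0 ∨ f = c0 := by clear d1 d2 g0 g1 g2 gd; omega
  have d1' : d = a1 ∨ f = c1 := by clear d0 d2 g0 g1 g2 gd; omega
  have d2' : d = a2 ∨ f = c2 := by clear d0 d1 g0 g1 g2 gd; omega
  clear d0 d1 d2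
  -- two of the three triples contain `f`
  have key : (f = c0 ∧ f = c1) ∨ (f = c0 ∧ f = c2) ∨ (f = c1 ∧ f = c2) := by
    clear g0 g1 g2 gd; omega
  have hgb : h = b := by
    clear gd
    rcases key with ⟨k1, k2⟩ | ⟨k1, k2⟩ | ⟨k1, k2⟩ <;> clear d0' d1' d2' <;> omega
  have hgd : g = d := by clear d0' d1' d2' key g0 g1 g2; omega
  clear d0' d1' d2' g0 g1 g2 gd
  refine ⟨d, b, f, fun a' b' c' pF => ?_⟩
  have f0 := hI _ _ _ _ _ _ pF p0
  have f1 := hI _ _ _ _ _ _ pF p1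
  have f2 := hI _ _ _ _ _ _ pF p2
  have fd := hI _ _ _ _ _ _ pF pD
  have fg := hI _ _ _ _ _ _ pF pG
  have hbf : b' = b ∨ c' = f := by
    clear fd fg
    rcases key with ⟨k1, k2⟩ | ⟨k1, k2⟩ | ⟨k1, k2⟩ <;> omega
  clear f0 f1 f2 key
  omega

/-- An intersecting family of triples either uses at most two vertices of some part, or all its
members contain two of three fixed vertices. -/
private lemma dichotomy (P : ℕ → ℕ → ℕ → Prop)
    (hI : ∀ a b c a' b' c', P a b c → P a' b' c' → a = a' ∨ b = b' ∨ c = c') :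
    (∃ x y, ∀ a b c, P a b c → a = x ∨ a = y) ∨ (∃ x y, ∀ a b c, P a b c → b = x ∨ b = y) ∨
    (∃ x y, ∀ a b c, P a b c → c = x ∨ c = y) ∨
    ∃ x1 x2 x3, ∀ a b c, P a b c →
      (a = x1 ∧ b = x2) ∨ (a = x1 ∧ c = x3) ∨ (b = x2 ∧ c = x3) := by
  by_contra hcon
  push Not at hcon
  obtain ⟨n1, n2, n3, n4⟩ := hcon
  obtain ⟨a0, b0, c0, p0, -⟩ := n1 0 0
  obtain ⟨a1, b1, c1, p1, h1, -⟩ := n1 a0 a0
  obtain ⟨a2, b2, c2, p2, h2, h2'⟩ := n1 a0 a1
  have m2 : ∀ x, ∃ a b c, P a b c ∧ b ≠ x := fun x => by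
    obtain ⟨a, b, c, p, h, -⟩ := n2 x x
    exact ⟨a, b, c, p, h⟩
  have m3 : ∀ x, ∃ a b c, P a b c ∧ c ≠ x := fun x => by
    obtain ⟨a, b, c, p, h, -⟩ := n3 x x
    exact ⟨a, b, c, p, h⟩
  have e01 : b0 = b1 ∨ c0 = c1 := by
    have := hI _ _ _ _ _ _ p0 p1
    omega
  have e02 : b0 = b2 ∨ c0 = c2 := by
    have := hI _ _ _ _ _ _ p0 p2
    omega
  have e12 : b1 = b2 ∨ c1 = c2 := by
    have := hI _ _ _ _ _ _ p1 p2
    omega
  rcases three_meet e01 e02 e12 with ⟨q1, q2⟩ | ⟨q1, q2⟩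
  · subst q1; subst q2
    obtain ⟨x1, x2, x3, h⟩ := core P hI m2 m3 p0 p1 p2 (Ne.symm h1) (Ne.symm h2) (Ne.symm h2')
    obtain ⟨a, b, c, p, k1, k2, k3⟩ := n4 x1 x2 x3
    rcases h a b c p with ⟨s, t⟩ | ⟨s, t⟩ | ⟨s, t⟩
    · exact k1 s t
    · exact k2 s t
    · exact k3 s t
  · subst q1; subst q2
    obtain ⟨x1, x2, x3, h⟩ := core (fun a b c => P a c b)
      (fun a b c a' b' c' h h' => by have := hI _ _ _ _ _ _ h h'; omega)
      (fun x => by obtain ⟨a, b, c, p, h⟩ := m3 x; exact ⟨a, c, b, p, h⟩)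
      (fun x => by obtain ⟨a, b, c, p, h⟩ := m2 x; exact ⟨a, c, b, p, h⟩)
      p0 p1 p2 (Ne.symm h1) (Ne.symm h2) (Ne.symm h2')
    obtain ⟨a, b, c, p, k1, k2, k3⟩ := n4 x1 x3 x2
    rcases h a c b p with ⟨s, t⟩ | ⟨s, t⟩ | ⟨s, t⟩
    · exact k2 s t
    · exact k1 s t
    · exact k3 t s

/-- Koenig for matching number two. -/
private lemma konig2 (P : ℕ → ℕ → Prop)
    (h : ∀ a b a' b' a'' b'', P a b → P a' b' → P a'' b'' →
      a = a' ∨ b = b' ∨ a = a'' ∨ b = b'' ∨ a' = a'' ∨ b' = b'') :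
    (∃ x y, ∀ a b, P a b → a = x ∨ a = y) ∨ (∃ x y, ∀ a b, P a b → a = x ∨ b = y) ∨
    (∃ x y, ∀ a b, P a b → b = x ∨ b = y) := by
  by_contra hcon
  push Not at hcon
  obtain ⟨hA, hB, hC⟩ := hcon
  obtain ⟨a, b, p1, -⟩ := hA 0 0
  obtain ⟨a', b', p2, h2, h2'⟩ := hB a b
  obtain ⟨u, v, p3, h3, h3'⟩ := hA a a'
  obtain ⟨p, q, p4, h4, h4'⟩ := hC b b'
  have k123 := h _ _ _ _ _ _ p1 p2 p3
  have k124 := h _ _ _ _ _ _ p1 p2 p4
  have k234 := h _ _ _ _ _ _ p2 p3 p4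
  have k134 := h _ _ _ _ _ _ p1 p3 p4
  have hv : v = b ∨ v = b' := by clear k124 k234 k134; omega
  have hp : p = a ∨ p = a' := by clear k123 k234 k134; omega
  clear k123 k124
  rcases hv with hv | hv
  · subst hv
    have hp' : p = a' := by clear k134; omega
    subst hp'
    obtain ⟨s, t, p5, h5, h5'⟩ := hB p v
    have k5a := h _ _ _ _ _ _ p5 p3 p4
    have k5b := h _ _ _ _ _ _ p5 p1 p2
    have k5c := h _ _ _ _ _ _ p5 p4 p1
    have k5d := h _ _ _ _ _ _ p5 p3 p2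
    clear k234 k134
    have j1 : s = a ∨ t = b' := by clear k5a k5c k5d; omega
    have j2 : t = q ∨ s = a := by clear k5a k5b k5d; omega
    have j3 : s = u ∨ t = q := by clear k5b k5c k5d; omega
    have j4 : s = u ∨ t = b' := by clear k5b k5c k5a; omega
    clear k5a k5b k5c k5d
    omega
  · subst hv
    have hp' : p = a := by clear k234; omega
    subst hp'
    obtain ⟨s, t, p5, h5, h5'⟩ := hB p v
    have k5a := h _ _ _ _ _ _ p5 p3 p4
    have k5b := h _ _ _ _ _ _ p5 p1 p2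
    have k5c := h _ _ _ _ _ _ p5 p4 p2
    have k5d := h _ _ _ _ _ _ p5 p3 p1
    clear k234 k134
    have j1 : s = a' ∨ t = b := by clear k5a k5c k5d; omega
    have j2 : t = q ∨ s = a' := by clear k5a k5b k5d; omega
    have j3 : s = u ∨ t = q := by clear k5b k5c k5d; omega
    have j4 : s = u ∨ t = b := by clear k5b k5c k5a; omega
    clear k5a k5b k5c k5d
    omega

/-- Triples any three of which have a common vertex. -/
private lemma common (P : ℕ → ℕ → ℕ → Prop)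
    (h : ∀ a b c a' b' c' a'' b'' c'', P a b c → P a' b' c' → P a'' b'' c'' →
      (a = a' ∧ a = a'') ∨ (b = b' ∧ b = b'') ∨ (c = c' ∧ c = c'')) :
    (∃ x, ∀ a b c, P a b c → a = x) ∨ (∃ x, ∀ a b c, P a b c → b = x) ∨
    (∃ x, ∀ a b c, P a b c → c = x) := by
  by_contra hcon
  push Not at hcon
  obtain ⟨hA, hB, hC⟩ := hcon
  obtain ⟨a, b, c, p, -⟩ := hA 0
  obtain ⟨a1, b1, c1, p1, h1⟩ := hA a
  obtain ⟨a2, b2, c2, p2, h2⟩ := hB b
  obtain ⟨a3, b3, c3, p3, h3⟩ := hC c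
  have k1 : c = c1 ∧ c = c2 := by
    have := h _ _ _ _ _ _ _ _ _ p p1 p2
    omega
  have k2 : b = b1 ∧ b = b3 := by
    have := h _ _ _ _ _ _ _ _ _ p p1 p3
    omega
  have k3 : a = a2 ∧ a = a3 := by
    have := h _ _ _ _ _ _ _ _ _ p p2 p3
    omega
  have k4 := h _ _ _ _ _ _ _ _ _ p1 p2 p3
  omega

private lemma cover4 {H : Finset (Fin 3 → ℕ)} (v1 v2 v3 v4 : Fin 3 × ℕ)
    (h : ∀ e ∈ H, e v1.1 = v1.2 ∨ e v2.1 = v2.2 ∨ e v3.1 = v3.2 ∨ e v4.1 = v4.2) :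
    tau H ≤ 4 := by
  refine (tau_le_of_cover H {v1, v2, v3, v4} fun e he => ?_).trans card_le_four
  rcases h e he with h | h | h | h
  · exact ⟨v1.1, by rw [h]; simp⟩
  · exact ⟨v2.1, by rw [h]; simp⟩
  · exact ⟨v3.1, by rw [h]; simp⟩
  · exact ⟨v4.1, by rw [h]; simp⟩

private lemma triple_meets {H : Finset (Fin 3 → ℕ)} {C : Finset (Fin 3 → ℕ) → (Fin 3 → ℕ)}
    (hC : ∀ S ⊆ H, S.card ≤ 3 →
      (∀ e ∈ S, Meets (C S) e) ∧ C S ∈ H ∧ ∀ S' ⊆ H, S'.card ≤ 3 → Meets (C S) (C S'))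
    {e e' e'' : Fin 3 → ℕ} (he : e ∈ H) (he' : e' ∈ H) (he'' : e'' ∈ H) :
    ∃ S ⊆ H, S.card ≤ 3 ∧ Meets (C S) e ∧ Meets (C S) e' ∧ Meets (C S) e'' := by
  classical
  have hS : ({e, e', e''} : Finset (Fin 3 → ℕ)) ⊆ H := by
    intro f hf
    simp only [mem_insert, mem_singleton] at hf
    rcases hf with rfl | rfl | rfl <;> assumption
  refine ⟨{e, e', e''}, hS, card_le_three, ?_, ?_, ?_⟩ <;>
    exact (hC _ hS card_le_three).1 _ (by simp)

private lemma case_two {H : Finset (Fin 3 → ℕ)} {C : Finset (Fin 3 → ℕ) → (Fin 3 → ℕ)}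
    (hC : ∀ S ⊆ H, S.card ≤ 3 →
      (∀ e ∈ S, Meets (C S) e) ∧ C S ∈ H ∧ ∀ S' ⊆ H, S'.card ≤ 3 → Meets (C S) (C S'))
    {i j l : Fin 3} (hijl : ∀ p, p = i ∨ p = j ∨ p = l) (x y : ℕ)
    (h : ∀ S ⊆ H, S.card ≤ 3 → C S i = x ∨ C S i = y) : tau H ≤ 4 := by
  have hm : ∀ S ⊆ H, S.card ≤ 3 → ∀ e : Fin 3 → ℕ, e i ≠ x → e i ≠ y → Meets (C S) e →
      C S j = e j ∨ C S l = e l := by
    rintro S hS hSk e hx hy ⟨p, hp⟩
    rcases hijl p with rfl | rfl | rfl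
    · rcases h S hS hSk with h | h
      · exact absurd (hp.symm.trans h) hx
      · exact absurd (hp.symm.trans h) hy
    · exact Or.inl hp
    · exact Or.inr hp
  have key := konig2 (fun a b => ∃ e ∈ H, e i ≠ x ∧ e i ≠ y ∧ e j = a ∧ e l = b) (by
    rintro a b a' b' a'' b'' ⟨e, he, hx, hy, rfl, rfl⟩ ⟨e', he', hx', hy', rfl, rfl⟩
      ⟨e'', he'', hx'', hy'', rfl, rfl⟩
    obtain ⟨S, hS, hSk, m1, m2, m3⟩ := triple_meets hC he he' he''
    have n1 := hm S hS hSk e hx hy m1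
    have n2 := hm S hS hSk e' hx' hy' m2
    have n3 := hm S hS hSk e'' hx'' hy'' m3
    clear hx hx' hx'' hy hy' hy''
    omega)
  rcases key with ⟨s, t, k⟩ | ⟨s, t, k⟩ | ⟨s, t, k⟩
  · refine cover4 (i, x) (i, y) (j, s) (j, t) fun e he => ?_
    by_cases hx : e i = x
    · exact Or.inl hx
    by_cases hy : e i = y
    · exact Or.inr (Or.inl hy)
    exact Or.inr (Or.inr (k _ _ ⟨e, he, hx, hy, rfl, rfl⟩))
  · refine cover4 (i, x) (i, y) (j, s) (l, t) fun e he => ?_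
    by_cases hx : e i = x
    · exact Or.inl hx
    by_cases hy : e i = y
    · exact Or.inr (Or.inl hy)
    exact Or.inr (Or.inr (k _ _ ⟨e, he, hx, hy, rfl, rfl⟩))
  · refine cover4 (i, x) (i, y) (l, s) (l, t) fun e he => ?_
    by_cases hx : e i = x
    · exact Or.inl hx
    by_cases hy : e i = y
    · exact Or.inr (Or.inl hy)
    exact Or.inr (Or.inr (k _ _ ⟨e, he, hx, hy, rfl, rfl⟩))

private lemma meets3 {a b : Fin 3 → ℕ} (h : Meets a b) : a 0 = b 0 ∨ a 1 = b 1 ∨ a 2 = b 2 := by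
  obtain ⟨p, hp⟩ := h
  fin_cases p
  · exact Or.inl hp
  · exact Or.inr (Or.inl hp)
  · exact Or.inr (Or.inr hp)

/-- For `r = k = 3` the cover number is at most four. -/
theorem three_three (H : Finset (Fin 3 → ℕ)) (hH : IntersectinglyCovered 3 H) : tau H ≤ 4 := by
  obtain ⟨C, hC⟩ := hH
  have key := dichotomy
    (fun a b c => ∃ S ⊆ H, S.card ≤ 3 ∧ C S 0 = a ∧ C S 1 = b ∧ C S 2 = c) (by
      rintro a b c a' b' c' ⟨S, hS, hSk, rfl, rfl, rfl⟩ ⟨S', hS', hSk', rfl, rfl, rfl⟩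
      exact meets3 ((hC S hS hSk).2.2 S' hS' hSk'))
  rcases key with ⟨x, y, k⟩ | ⟨x, y, k⟩ | ⟨x, y, k⟩ | ⟨x1, x2, x3, k⟩
  · exact case_two hC (i := 0) (j := 1) (l := 2) (by decide) x y
      fun S hS hSk => k _ _ _ ⟨S, hS, hSk, rfl, rfl, rfl⟩
  · exact case_two hC (i := 1) (j := 0) (l := 2) (by decide) x y
      fun S hS hSk => k _ _ _ ⟨S, hS, hSk, rfl, rfl, rfl⟩
  · exact case_two hC (i := 2) (j := 0) (l := 1) (by decide) x y
      fun S hS hSk => k _ _ _ ⟨S, hS, hSk, rfl, rfl, rfl⟩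
  · have key := common
      (fun a b c => ∃ e ∈ H, e 0 ≠ x1 ∧ e 1 ≠ x2 ∧ e 2 ≠ x3 ∧ e 0 = a ∧ e 1 = b ∧ e 2 = c) (by
        rintro a b c a' b' c' a'' b'' c'' ⟨e, he, h1, h2, h3, rfl, rfl, rfl⟩
          ⟨e', he', h1', h2', h3', rfl, rfl, rfl⟩ ⟨e'', he'', h1'', h2'', h3'', rfl, rfl, rfl⟩
        obtain ⟨S, hS, hSk, m1, m2, m3⟩ := triple_meets hC he he' he''
        have n1 := meets3 m1
        have n2 := meets3 m2
        have n3 := meets3 m3
        rcases k _ _ _ ⟨S, hS, hSk, rfl, rfl, rfl⟩ with ⟨s, t⟩ | ⟨s, t⟩ | ⟨s, t⟩ <;>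
          rw [s, t] at n1 n2 n3
        · have n1' : C S 2 = e 2 := by clear n2 n3; omega
          have n2' : C S 2 = e' 2 := by clear n1 n3; omega
          have n3' : C S 2 = e'' 2 := by clear n1 n2; omega
          exact Or.inr (Or.inr ⟨n1'.symm.trans n2', n1'.symm.trans n3'⟩)
        · have n1' : C S 1 = e 1 := by clear n2 n3; omega
          have n2' : C S 1 = e' 1 := by clear n1 n3; omega
          have n3' : C S 1 = e'' 1 := by clear n1 n2; omega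
          exact Or.inr (Or.inl ⟨n1'.symm.trans n2', n1'.symm.trans n3'⟩)
        · have n1' : C S 0 = e 0 := by clear n2 n3; omega
          have n2' : C S 0 = e' 0 := by clear n1 n3; omega
          have n3' : C S 0 = e'' 0 := by clear n1 n2; omega
          exact Or.inl ⟨n1'.symm.trans n2', n1'.symm.trans n3'⟩)
    have fin : ∀ e ∈ H, e 0 = x1 ∨ e 1 = x2 ∨ e 2 = x3 ∨
        (e 0 ≠ x1 ∧ e 1 ≠ x2 ∧ e 2 ≠ x3) := fun e _ => by omega
    rcases key with ⟨x, k'⟩ | ⟨x, k'⟩ | ⟨x, k'⟩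
    · refine cover4 (0, x1) (1, x2) (2, x3) (0, x) fun e he => ?_
      rcases fin e he with h | h | h | ⟨h1, h2, h3⟩
      · exact Or.inl h
      · exact Or.inr (Or.inl h)
      · exact Or.inr (Or.inr (Or.inl h))
      · exact Or.inr (Or.inr (Or.inr (k' _ _ _ ⟨e, he, h1, h2, h3, rfl, rfl, rfl⟩)))
    · refine cover4 (0, x1) (1, x2) (2, x3) (1, x) fun e he => ?_
      rcases fin e he with h | h | h | ⟨h1, h2, h3⟩
      · exact Or.inl h
      · exact Or.inr (Or.inl h)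
      · exact Or.inr (Or.inr (Or.inl h))
      · exact Or.inr (Or.inr (Or.inr (k' _ _ _ ⟨e, he, h1, h2, h3, rfl, rfl, rfl⟩)))
    · refine cover4 (0, x1) (1, x2) (2, x3) (2, x) fun e he => ?_
      rcases fin e he with h | h | h | ⟨h1, h2, h3⟩
      · exact Or.inl h
      · exact Or.inr (Or.inl h)
      · exact Or.inr (Or.inr (Or.inl h))
      · exact Or.inr (Or.inr (Or.inr (k' _ _ _ ⟨e, he, h1, h2, h3, rfl, rfl, rfl⟩)))

/-- For `k < r` there is no bound on the cover number. -/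
theorem unbounded {r k : ℕ} (hk : k < r) (t : ℕ) :
    ∃ H : Finset (Fin r → ℕ), IntersectinglyCovered k H ∧ t ≤ tau H := by
  classical
  let H : Finset (Fin r → ℕ) := Fintype.piFinset fun _ => Finset.range (t + 1)
  have hmem : ∀ e, e ∈ H ↔ ∀ p, e p < t + 1 := by
    intro e
    simp only [H, Fintype.mem_piFinset, Finset.mem_range]
  have h0r : 0 < r := by omega
  let C : Finset (Fin r → ℕ) → (Fin r → ℕ) := fun S p =>
    if (p : ℕ) = 0 then 0 else (S.toList.getD ((p : ℕ) - 1) fun _ => 0) p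
  refine ⟨H, ⟨C, fun S hS hSk => ⟨fun e he => ?_, (hmem _).2 fun p => ?_,
    fun S' _ _ => ⟨⟨0, h0r⟩, by simp [C]⟩⟩⟩, ?_⟩
  · obtain ⟨j, hj, hje⟩ := List.getElem_of_mem (Finset.mem_toList.2 he)
    rw [Finset.length_toList] at hj
    refine ⟨⟨j + 1, by omega⟩, ?_⟩
    have hj' : j < S.toList.length := by rw [Finset.length_toList]; exact hj
    simp only [C, Nat.add_eq_zero_iff, one_ne_zero, and_false, if_false, Nat.add_sub_cancel]
    rw [List.getD_eq_getElem _ _ hj', hje]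
  · by_cases hp : (p : ℕ) = 0
    · simp [C, hp]
    · simp only [C, hp, if_false]
      by_cases hl : (p : ℕ) - 1 < S.toList.length
      · rw [List.getD_eq_getElem _ _ hl]
        exact (hmem _).1 (hS (Finset.mem_toList.1 (List.getElem_mem hl))) p
      · rw [List.getD_eq_default _ _ (by omega)]
        omega
  · by_contra hlt
    push Not at hlt
    obtain ⟨W, hW, hc⟩ := exists_tau_cover h0r H
    have hex : ∀ p : Fin r, ∃ a < t + 1, (p, a) ∉ W := by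
      intro p
      by_contra hcon
      push Not at hcon
      have hsub : (Finset.range (t + 1)).image (fun a => (p, a)) ⊆ W := by
        intro v hv
        obtain ⟨a, ha, rfl⟩ := Finset.mem_image.1 hv
        exact hcon a (Finset.mem_range.1 ha)
      have := Finset.card_le_card hsub
      rw [Finset.card_image_of_injective _ (fun a b h => (Prod.mk.inj h).2),
        Finset.card_range] at this
      omega
    choose a ha1 ha2 using hex
    obtain ⟨p, hp⟩ := hW a ((hmem a).2 ha1)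
    exact ha2 p hp

end H23KC
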