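import Mathlib
import Pool.Agent.H19.RPDefs
import Pool.Agent.H23.KC.Defs
import Pool.Agent.H23.KC.NDefs
import Pool.Agent.H23.KC.Lower
import Pool.Agent.H23.KC.Main
import Pool.Agent.H23.KC.Narrow

/-!
The examples of the top range of MP_39270e_co use two vertices in each part.
-/

namespace H23KC

open H19RP

variable {r : ℕ}

/-- Two layers. -/
theorem lower_two_narrow (hr : 2 ≤ r) {k : ℕ} (hk : k < layers r) :
    ∃ H : Finset (Fin r → ℕ), NarrowCovered 2 r k H ∧ r + 1 ≤ tau H := by
  obtain ⟨F, hc, -, hG, hI, -⟩ := exists_family hr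
  refine ⟨bigH r 1 F, covered_narrow (fun X hX Y hY => agree_of (hI X hX Y hY)) ?_,
    tau_ge (by omega) (hG.mono (Finset.subset_insert _ _))⟩
  omega

/-- Two layers and the empty set. -/
theorem lower_three_narrow (hr : 4 ≤ r) {k : ℕ} (hk : k ≤ layers r) :
    ∃ H : Finset (Fin r → ℕ), NarrowCovered 2 r k H ∧ r + 1 ≤ tau H := by
  classical
  obtain ⟨F, hc, he, hG, hI, hU⟩ := exists_family (r := r) (by omega)
  have hI' : ∀ X ∈ insert ∅ F, ∀ Y ∈ insert ∅ F, Y ≠ Xᶜ := by
    intro X hX Y hY hXY
    rcases Finset.mem_insert.1 hX with h | h <;> rcases Finset.mem_insert.1 hY with h' | h'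
    · subst h; subst h'
      have := congrArg Finset.card hXY
      rw [Finset.card_compl, Fintype.card_fin, Finset.card_empty] at this
      omega
    · subst h
      exact hU hr Y h' (by rw [hXY, Finset.compl_empty])
    · subst h'
      refine hU hr X h ?_
      rw [← compl_compl X, ← hXY, Finset.compl_empty]
    · exact hI X h Y h' hXY
  refine ⟨bigH r 1 (insert ∅ F), covered_narrow (fun X hX Y hY => agree_of (hI' X hX Y hY)) ?_,
    tau_ge (by omega) hG⟩
  rw [Finset.card_insert_of_notMem he]
  omega

theorem lower_small_narrow (hr : 2 ≤ r) (hr' : r ≤ 5) {k : ℕ} (hk : k < 2 ^ (r - 1)) :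
    ∃ H : Finset (Fin r → ℕ), NarrowCovered 2 r k H ∧ r + 1 ≤ tau H := by
  obtain h | h | h | h : r = 2 ∨ r = 3 ∨ r = 4 ∨ r = 5 := by omega
  · subst h; exact lower_two_narrow (by norm_num) (hk.trans_le (by decide))
  · subst h; exact lower_two_narrow (by norm_num) (hk.trans_le (by decide))
  · subst h
    have : layers 4 = 7 := by decide
    exact lower_three_narrow (by norm_num) (by rw [this]; norm_num at hk; omega)
  · subst h
    have : layers 5 = 15 := by decide
    exact lower_three_narrow (by norm_num) (by rw [this]; norm_num at hk; omega)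

end H23KC
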