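import Mathlib
import Pool.Agent.H19.RPDefs
import Pool.Agent.H23.KC.Lower

/-!
For `k < 2 ^ (r - 1)` some `k`-intersectingly covered `r`-partite `r`-graph is not covered by
any transversal.
-/

namespace H23KC

open H19RP

variable {r : ℕ}

theorem no_transversal (hr : 1 ≤ r) {k : ℕ} (hk : k < 2 ^ (r - 1)) :
    ∃ H : Finset (Fin r → ℕ), IntersectinglyCovered k H ∧
      ∀ T : Fin r → ℕ, ∃ e ∈ H, ¬ Meets T e := by
  classical
  let q : Fin r := ⟨0, hr⟩
  let F : Finset (Finset (Fin r)) := (Finset.univ.erase q).powerset.image (insert q)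
  have hF : F.card = 2 ^ (r - 1) := by
    rw [Finset.card_image_of_injOn, Finset.card_powerset, Finset.card_erase_of_mem
      (Finset.mem_univ _), Finset.card_univ, Fintype.card_fin]
    intro X hX Y hY hXY
    have hX' : q ∉ X := fun h => by
      simpa using (Finset.mem_powerset.1 (Finset.mem_coe.1 hX)) h
    have hY' : q ∉ Y := fun h => by
      simpa using (Finset.mem_powerset.1 (Finset.mem_coe.1 hY)) h
    have hXY' : insert q X = insert q Y := hXY
    rw [← Finset.erase_insert hX', ← Finset.erase_insert hY', hXY']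
  have hq : ∀ X ∈ F, q ∈ X := by
    intro X hX
    obtain ⟨Y, -, rfl⟩ := Finset.mem_image.1 hX
    exact Finset.mem_insert_self _ _
  refine ⟨bigH r 1 F, covered (fun X hX Y hY => ⟨q, by simp [hq X hX, hq Y hY]⟩) (by omega), ?_⟩
  intro T
  let e : Fin r → ℕ := fun p => if T p = 0 then 1 else 0
  refine ⟨e, ?_, ?_⟩
  · rw [mem_bigH]
    refine ⟨fun p => ?_, fun G _ hG => ?_⟩
    · simp only [e]; split_ifs <;> omega
    · rw [Finset.card_le_one]
      have key : ∀ X : Finset (Fin r), ¬ Meets (ind X) e → ∀ p, (p ∈ X ↔ T p ≠ 0) := by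
        intro X hX p
        by_contra hcon
        apply hX
        refine ⟨p, ?_⟩
        by_cases h1 : p ∈ X <;> by_cases h2 : T p = 0 <;> simp_all [ind, e]
      intro X hX Y hY
      ext p
      rw [key X (hG X hX) p, key Y (hG Y hY) p]
  · rintro ⟨p, hp⟩
    by_cases h : T p = 0
    · simp [e, h] at hp
    · simp [e, h] at hp

end H23KC
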